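import Mathlib

/-!
# Sequential exploration of a matching and positive association

Positions and elements arrive one after the other.  When an element `k` arrives it is either matched
to an open position or stays open; when a position arrives it is either matched to an open element
or stays open.  At the end nothing is open.  After each arrival a weight `w ^ (number of open items)`
is charged, `0 ≤ w ≤ 1`.  The resulting measure on matchings is positively associated for the order
generated by removing inversions.
-/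

set_option autoImplicit false

namespace Pool.Agent.H906.Assoc

/-- arrival of a position or of an element, with its label and the weight charged afterwards -/
inductive Ev where
  | pos (t : ℕ) (w : ℝ) : Ev
  | el (k : ℕ) (w : ℝ) : Ev

/-- the weight of an event -/
def Ev.w : Ev → ℝ
  | Ev.pos _ w => w
  | Ev.el _ w => w

/-- exchange the roles of positions and elements -/
def Ev.flip : Ev → Ev
  | Ev.pos t w => Ev.el t w
  | Ev.el k w => Ev.pos k w

/-- the total weight of all completions of a state, each multiplied by the value of `f` -/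
noncomputable def F (f : Multiset (ℕ × ℕ) → ℝ) :
    List Ev → Multiset ℕ → Multiset ℕ → Multiset (ℕ × ℕ) → ℝ
  | [], P, Y, M => if P = 0 ∧ Y = 0 then f M else 0
  | Ev.pos t w :: ev, P, Y, M =>
      (Y.map (fun y => w ^ (P.card + (Y.erase y).card) *
        F f ev P (Y.erase y) ((t, y) ::ₘ M))).sum +
      w ^ ((t ::ₘ P).card + Y.card) * F f ev (t ::ₘ P) Y M
  | Ev.el k w :: ev, P, Y, M =>
      (P.map (fun x => w ^ ((P.erase x).card + Y.card) *
        F f ev (P.erase x) Y ((x, k) ::ₘ M))).sum +
      w ^ (P.card + (k ::ₘ Y).card) * F f ev P (k ::ₘ Y) M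

/-- the value after an event, with the charge for that event -/
noncomputable def G (f : Multiset (ℕ × ℕ) → ℝ) (w : ℝ) (ev : List Ev) (P Y : Multiset ℕ)
    (M : Multiset (ℕ × ℕ)) : ℝ := w ^ (P.card + Y.card) * F f ev P Y M

theorem F_pos (f : Multiset (ℕ × ℕ) → ℝ) (t : ℕ) (w : ℝ) (ev : List Ev) (P Y : Multiset ℕ)
    (M : Multiset (ℕ × ℕ)) :
    F f (Ev.pos t w :: ev) P Y M =
      (Y.map (fun y => G f w ev P (Y.erase y) ((t, y) ::ₘ M))).sum + G f w ev (t ::ₘ P) Y M := rfl

theorem F_el (f : Multiset (ℕ × ℕ) → ℝ) (k : ℕ) (w : ℝ) (ev : List Ev) (P Y : Multiset ℕ)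
    (M : Multiset (ℕ × ℕ)) :
    F f (Ev.el k w :: ev) P Y M =
      (P.map (fun x => G f w ev (P.erase x) Y ((x, k) ::ₘ M))).sum + G f w ev P (k ::ₘ Y) M := rfl

/-- the total weight of all completions of a state with `p` open positions and `e` open elements -/
noncomputable def Z : List Ev → ℕ → ℕ → ℝ
  | [], p, e => if p = 0 ∧ e = 0 then 1 else 0
  | Ev.pos _ w :: ev, p, e =>
      e * (w ^ (p + (e - 1)) * Z ev p (e - 1)) + w ^ (p + 1 + e) * Z ev (p + 1) e
  | Ev.el _ w :: ev, p, e =>
      p * (w ^ ((p - 1) + e) * Z ev (p - 1) e) + w ^ (p + (e + 1)) * Z ev p (e + 1)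

/-- labels of the positions which arrive -/
def posL : List Ev → List ℕ
  | [] => []
  | Ev.pos t _ :: ev => t :: posL ev
  | Ev.el _ _ :: ev => posL ev

/-- labels of the elements which arrive -/
def elL : List Ev → List ℕ
  | [] => []
  | Ev.pos _ _ :: ev => elL ev
  | Ev.el k _ :: ev => k :: elL ev

/-- open items have smaller labels than the items which arrive later, which arrive in increasing
order; all weights are in `[0, 1]` -/
structure Good (ev : List Ev) (P Y : Multiset ℕ) : Prop where
  hP : ∀ u ∈ P, ∀ t ∈ posL ev, u ≤ t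
  hY : ∀ v ∈ Y, ∀ k ∈ elL ev, v ≤ k
  sP : (posL ev).Pairwise (· ≤ ·)
  sY : (elL ev).Pairwise (· ≤ ·)
  hw : ∀ e ∈ ev, 0 ≤ e.w ∧ e.w ≤ 1

/-- `f` increases when an inversion is removed -/
def Inc (f : Multiset (ℕ × ℕ) → ℝ) : Prop :=
  ∀ (M : Multiset (ℕ × ℕ)) (x t y k : ℕ), x ≤ t → y ≤ k →
    f ((x, k) ::ₘ (t, y) ::ₘ M) ≤ f ((x, y) ::ₘ (t, k) ::ₘ M)

theorem erase_cons' (x : ℕ) {u : ℕ} {P : Multiset ℕ} (h : u ∈ P) :
    (x ::ₘ P).erase u = x ::ₘ P.erase u := by
  by_cases hx : x = u
  · subst hx
    rw [Multiset.erase_cons_head, Multiset.cons_erase h]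
  · rw [Multiset.erase_cons_tail _ hx]

theorem F_nonneg {f : Multiset (ℕ × ℕ) → ℝ} (hf : ∀ M, 0 ≤ f M) :
    ∀ (ev : List Ev) (_ : ∀ e ∈ ev, 0 ≤ e.w) (P Y : Multiset ℕ) (M : Multiset (ℕ × ℕ)),
      0 ≤ F f ev P Y M := by
  intro ev
  induction ev with
  | nil => intro _ P Y M; simp only [F]; split_ifs; exacts [hf M, le_rfl]
  | cons e ev ih =>
    intro hw P Y M
    have hw' : ∀ e ∈ ev, 0 ≤ e.w := fun e he => hw e (List.mem_cons_of_mem _ he)
    cases e with
    | pos t w =>
      have h0 : 0 ≤ w := hw _ List.mem_cons_self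
      rw [F_pos]
      refine add_nonneg (Multiset.sum_nonneg ?_) (mul_nonneg (pow_nonneg h0 _) (ih hw' _ _ _))
      intro z hz
      rw [Multiset.mem_map] at hz
      obtain ⟨y, -, rfl⟩ := hz
      exact mul_nonneg (pow_nonneg h0 _) (ih hw' _ _ _)
    | el k w =>
      have h0 : 0 ≤ w := hw _ List.mem_cons_self
      rw [F_el]
      refine add_nonneg (Multiset.sum_nonneg ?_) (mul_nonneg (pow_nonneg h0 _) (ih hw' _ _ _))
      intro z hz
      rw [Multiset.mem_map] at hz
      obtain ⟨y, -, rfl⟩ := hz
      exact mul_nonneg (pow_nonneg h0 _) (ih hw' _ _ _)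

theorem Z_nonneg : ∀ (ev : List Ev) (_ : ∀ e ∈ ev, 0 ≤ e.w) (p e : ℕ), 0 ≤ Z ev p e := by
  intro ev
  induction ev with
  | nil => intro _ p e; simp only [Z]; split_ifs <;> norm_num
  | cons e ev ih =>
    intro hw p q
    have hw' : ∀ e ∈ ev, 0 ≤ e.w := fun e he => hw e (List.mem_cons_of_mem _ he)
    cases e with
    | pos t w =>
      have h0 : 0 ≤ w := hw _ List.mem_cons_self
      have := ih hw' p (q - 1)
      have := ih hw' (p + 1) q
      simp only [Z]; positivity
    | el k w =>
      have h0 : 0 ≤ w := hw _ List.mem_cons_self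
      have := ih hw' (p - 1) q
      have := ih hw' p (q + 1)
      simp only [Z]; positivity

theorem F_le_Z {f : Multiset (ℕ × ℕ) → ℝ} (hf : ∀ M, f M ≤ 1) :
    ∀ (ev : List Ev) (_ : ∀ e ∈ ev, 0 ≤ e.w) (P Y : Multiset ℕ) (M : Multiset (ℕ × ℕ)),
      F f ev P Y M ≤ Z ev P.card Y.card := by
  intro ev
  induction ev with
  | nil =>
    intro _ P Y M
    simp only [F, Z, Multiset.card_eq_zero]
    split_ifs
    exacts [hf M, le_rfl]
  | cons e ev ih =>
    intro hw P Y M
    have hw' : ∀ e ∈ ev, 0 ≤ e.w := fun e he => hw e (List.mem_cons_of_mem _ he)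
    cases e with
    | pos t w =>
      have h0 : 0 ≤ w := hw _ List.mem_cons_self
      rw [F_pos]
      simp only [Z]
      refine add_le_add ?_ ?_
      · have h : ∀ y ∈ Y, G f w ev P (Y.erase y) ((t, y) ::ₘ M) ≤
            w ^ (P.card + (Y.card - 1)) * Z ev P.card (Y.card - 1) := by
          intro y hy
          have h1 := ih hw' P (Y.erase y) ((t, y) ::ₘ M)
          rw [Multiset.card_erase_of_mem hy, Nat.pred_eq_sub_one] at h1
          unfold G
          rw [Multiset.card_erase_of_mem hy, Nat.pred_eq_sub_one]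
          exact mul_le_mul_of_nonneg_left h1 (pow_nonneg h0 _)
        have h2 := Multiset.sum_map_le_sum_map _ _ h
        rw [Multiset.map_const', Multiset.sum_replicate, nsmul_eq_mul] at h2
        exact h2
      · have h1 := ih hw' (t ::ₘ P) Y M
        rw [Multiset.card_cons] at h1
        unfold G
        rw [Multiset.card_cons]
        exact mul_le_mul_of_nonneg_left h1 (pow_nonneg h0 _)
    | el k w =>
      have h0 : 0 ≤ w := hw _ List.mem_cons_self
      rw [F_el]
      simp only [Z]
      refine add_le_add ?_ ?_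
      · have h : ∀ x ∈ P, G f w ev (P.erase x) Y ((x, k) ::ₘ M) ≤
            w ^ ((P.card - 1) + Y.card) * Z ev (P.card - 1) Y.card := by
          intro x hx
          have h1 := ih hw' (P.erase x) Y ((x, k) ::ₘ M)
          rw [Multiset.card_erase_of_mem hx, Nat.pred_eq_sub_one] at h1
          unfold G
          rw [Multiset.card_erase_of_mem hx, Nat.pred_eq_sub_one]
          exact mul_le_mul_of_nonneg_left h1 (pow_nonneg h0 _)
        have h2 := Multiset.sum_map_le_sum_map _ _ h
        rw [Multiset.map_const', Multiset.sum_replicate, nsmul_eq_mul] at h2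
        exact h2
      · have h1 := ih hw' P (k ::ₘ Y) M
        rw [Multiset.card_cons] at h1
        unfold G
        rw [Multiset.card_cons]
        exact mul_le_mul_of_nonneg_left h1 (pow_nonneg h0 _)

/-! ### Exchanging positions and elements -/

/-- the events with positions and elements exchanged -/
def flipL (ev : List Ev) : List Ev := ev.map Ev.flip

theorem F_flip (f : Multiset (ℕ × ℕ) → ℝ) :
    ∀ (ev : List Ev) (P Y : Multiset ℕ) (M : Multiset (ℕ × ℕ)),
      F (fun M => f (M.map Prod.swap)) (flipL ev) Y P M = F f ev P Y (M.map Prod.swap) := by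
  intro ev
  induction ev with
  | nil => intro P Y M; simp only [flipL, List.map_nil, F, and_comm]
  | cons e ev ih =>
    intro P Y M
    have ih' : ∀ (P Y : Multiset ℕ) (M : Multiset (ℕ × ℕ)) (w : ℝ),
        G (fun M => f (M.map Prod.swap)) w (flipL ev) Y P M = G f w ev P Y (M.map Prod.swap) := by
      intro P Y M w
      unfold G
      rw [ih, add_comm P.card]
    cases e with
    | pos t w =>
      show F _ (Ev.el t w :: flipL ev) Y P M = _
      rw [F_el, F_pos, ih']
      congr 2
      refine Multiset.map_congr rfl fun y _ => ?_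
      rw [ih', Multiset.map_cons]
      rfl
    | el k w =>
      show F _ (Ev.pos k w :: flipL ev) Y P M = _
      rw [F_el, F_pos, ih']
      congr 2
      refine Multiset.map_congr rfl fun y _ => ?_
      rw [ih', Multiset.map_cons]
      rfl

theorem Z_flip : ∀ (ev : List Ev) (p e : ℕ), Z (flipL ev) e p = Z ev p e := by
  intro ev
  induction ev with
  | nil => intro p e; simp only [flipL, List.map_nil, Z, and_comm]
  | cons v ev ih =>
    intro p e
    cases v with
    | pos t w =>
      show Z (Ev.el t w :: flipL ev) e p = _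
      simp only [Z, ih]
      congr 2
      · rw [add_comm]
      · rw [add_comm]
    | el k w =>
      show Z (Ev.pos k w :: flipL ev) e p = _
      simp only [Z, ih]
      congr 2
      · rw [add_comm]
      · rw [add_comm]

theorem Inc.flip {f : Multiset (ℕ × ℕ) → ℝ} (hf : Inc f) :
    Inc (fun M => f (M.map Prod.swap)) := by
  intro M x t y k hx hy
  simp only [Multiset.map_cons, Prod.swap]
  have := hf (M.map Prod.swap) y k x t hy hx
  rw [Multiset.cons_swap] at this
  exact this

theorem posL_flip (ev : List Ev) : posL (flipL ev) = elL ev := by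
  induction ev with
  | nil => rfl
  | cons e ev ih =>
    cases e with
    | pos t w => exact ih
    | el k w => show k :: posL (flipL ev) = _; rw [ih]; rfl

theorem elL_flip (ev : List Ev) : elL (flipL ev) = posL ev := by
  induction ev with
  | nil => rfl
  | cons e ev ih =>
    cases e with
    | pos t w => show t :: elL (flipL ev) = _; rw [ih]; rfl
    | el k w => exact ih

theorem Good.flip {ev : List Ev} {P Y : Multiset ℕ} (h : Good ev P Y) : Good (flipL ev) Y P := by
  refine ⟨?_, ?_, ?_, ?_, ?_⟩
  · rw [posL_flip]; exact h.hY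
  · rw [elL_flip]; exact h.hP
  · rw [posL_flip]; exact h.sY
  · rw [elL_flip]; exact h.sP
  · intro e he
    rw [flipL, List.mem_map] at he
    obtain ⟨e', he', rfl⟩ := he
    have := h.hw e' he'
    cases e' <;> exact this

end Pool.Agent.H906.Assoc
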