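import Pool.Agent.H906.Assoc.Ident

set_option autoImplicit false

namespace Pool.Agent.H906.Assoc

/-- the events `pos j, el j, pos (j + 1), el (j + 1), ...` with weight `q` after each element -/
def evs (q : ℝ) : ℕ → ℕ → List Ev
  | _, 0 => []
  | j, m + 1 => Ev.pos j 1 :: Ev.el j q :: evs q (j + 1) m

theorem posL_evs (q : ℝ) : ∀ m j : ℕ, posL (evs q j m) = List.range' j m := by
  intro m
  induction m with
  | zero => intro j; rfl
  | succ m ih => intro j; show j :: posL (evs q (j + 1) m) = _; rw [ih, List.range'_succ]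

theorem elL_evs (q : ℝ) : ∀ m j : ℕ, elL (evs q j m) = List.range' j m := by
  intro m
  induction m with
  | zero => intro j; rfl
  | succ m ih => intro j; show j :: elL (evs q (j + 1) m) = _; rw [ih, List.range'_succ]

theorem evs_w {q : ℝ} (h0 : 0 ≤ q) (h1 : q ≤ 1) : ∀ m j : ℕ, ∀ e ∈ evs q j m, 0 ≤ e.w ∧ e.w ≤ 1 := by
  intro m
  induction m with
  | zero => intro j e he; simp [evs] at he
  | succ m ih =>
    intro j e he
    simp only [evs, List.mem_cons] at he
    rcases he with rfl | rfl | he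
    · exact ⟨zero_le_one, le_rfl⟩
    · exact ⟨h0, h1⟩
    · exact ih _ e he

theorem good_evs {q : ℝ} (h0 : 0 ≤ q) (h1 : q ≤ 1) (n : ℕ) : Good (evs q 0 n) 0 0 := by
  refine ⟨by simp, by simp, ?_, ?_, evs_w h0 h1 n 0⟩
  · rw [posL_evs]; exact (List.pairwise_lt_range').imp le_of_lt
  · rw [elL_evs]; exact (List.pairwise_lt_range').imp le_of_lt

/-- the weight of one permutation -/
theorem trace (q : ℝ) (n : ℕ) (σ : Equiv.Perm ℕ) : ∀ m j : ℕ,
    F (ind (gr n σ)) (evs q j m) (opP σ j j).val (opY σ j j).val (mt σ j j) =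
      q ^ (∑ k ∈ Finset.Ico j (j + m), ((opP σ (k + 1) (k + 1)).card + (opY σ (k + 1) (k + 1)).card)) *
      F (ind (gr n σ)) [] (opP σ (j + m) (j + m)).val (opY σ (j + m) (j + m)).val
        (mt σ (j + m) (j + m)) := by
  intro m
  induction m with
  | zero => intro j; simp [evs]
  | succ m ih =>
    intro j
    show F _ (Ev.pos j 1 :: Ev.el j q :: evs q (j + 1) m) _ _ _ = _
    rw [traceP n σ j j 1 _ (by
      intro k hk
      have : k ∈ j :: elL (evs q (j + 1) m) := hk
      rw [elL_evs, ← List.range'_succ, List.mem_range'] at this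
      obtain ⟨i, -, rfl⟩ := this
      omega)]
    unfold G
    rw [one_pow, one_mul, traceE n σ (j + 1) j q _ (by
      intro k hk
      rw [posL_evs, List.mem_range'] at hk
      obtain ⟨i, -, rfl⟩ := hk
      omega)]
    unfold G
    rw [ih (j + 1), ← mul_assoc, ← pow_add]
    have e : j + (m + 1) = (j + 1) + m := by ring
    have hs : ∑ k ∈ Finset.Ico j ((j + 1) + m),
        ((opP σ (k + 1) (k + 1)).card + (opY σ (k + 1) (k + 1)).card) =
        ((opP σ (j + 1) (j + 1)).card + (opY σ (j + 1) (j + 1)).card) +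
        ∑ k ∈ Finset.Ico (j + 1) ((j + 1) + m),
          ((opP σ (k + 1) (k + 1)).card + (opY σ (k + 1) (k + 1)).card) :=
      Finset.sum_eq_sum_Ico_succ_bot (by omega) _
    rw [e, hs]
    rfl

theorem opP_end (n : ℕ) (σ : Equiv.Perm ℕ) (h : ∀ i, i < n → σ i < n) : opP σ n n = ∅ := by
  unfold opP
  rw [Finset.filter_eq_empty_iff]
  intro x hx
  have := h x (Finset.mem_range.1 hx)
  omega

theorem opY_end (n : ℕ) (σ : Equiv.Perm ℕ) (h : ∀ i, i < n → σ.symm i < n) : opY σ n n = ∅ := by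
  unfold opY
  rw [Finset.filter_eq_empty_iff]
  intro x hx
  have := h x (Finset.mem_range.1 hx)
  omega

theorem mt_end (n : ℕ) (σ : Equiv.Perm ℕ) (h : ∀ i, i < n → σ i < n) : mt σ n n = gr n σ := by
  unfold mt gr
  congr 2
  rw [Finset.filter_true_of_mem]
  intro x hx
  exact h x (Finset.mem_range.1 hx)

/-- the displacement `∑ |σ i - i|` as a natural number -/
def disp (n : ℕ) (σ : ℕ → ℕ) : ℕ := ∑ i ∈ Finset.range n, ((σ i - i) + (i - σ i))

theorem sum_open (n : ℕ) (σ : Equiv.Perm ℕ) (h : ∀ i, i < n → σ i < n)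
    (h' : ∀ i, i < n → σ.symm i < n) :
    ∑ k ∈ Finset.range n, ((opP σ (k + 1) (k + 1)).card + (opY σ (k + 1) (k + 1)).card) =
      disp n σ := by
  have key : ∀ τ : Equiv.Perm ℕ, (∀ i, i < n → τ i < n) →
      ∑ k ∈ Finset.range n, ((Finset.range (k + 1)).filter (fun x => k + 1 ≤ τ x)).card =
        ∑ i ∈ Finset.range n, (τ i - i) := by
    intro τ hτ
    have e1 : ∀ k ∈ Finset.range n, ((Finset.range (k + 1)).filter (fun x => k + 1 ≤ τ x)).card =
        ∑ i ∈ Finset.range n, if i ≤ k ∧ k < τ i then 1 else 0 := by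
      intro k hk
      rw [← Finset.sum_filter, Finset.sum_const, smul_eq_mul, mul_one]
      congr 1
      ext x
      simp only [Finset.mem_filter, Finset.mem_range] at hk ⊢
      omega
    rw [Finset.sum_congr rfl e1, Finset.sum_comm]
    refine Finset.sum_congr rfl fun i hi => ?_
    rw [← Finset.sum_filter, Finset.sum_const, smul_eq_mul, mul_one]
    have : (Finset.range n).filter (fun k => i ≤ k ∧ k < τ i) = Finset.Ico i (τ i) := by
      ext k
      have := hτ i (Finset.mem_range.1 hi)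
      simp only [Finset.mem_filter, Finset.mem_range, Finset.mem_Ico]
      omega
    rw [this, Nat.card_Ico]
  rw [Finset.sum_add_distrib]
  have k1 := key σ h
  have k2 := key σ.symm h'
  have k3 : ∑ i ∈ Finset.range n, (σ.symm i - i) = ∑ i ∈ Finset.range n, (i - σ i) := by
    refine Finset.sum_bij' (fun i _ => σ.symm i) (fun i _ => σ i) ?_ ?_ ?_ ?_ ?_
    · intro i hi; exact Finset.mem_range.2 (h' i (Finset.mem_range.1 hi))
    · intro i hi; exact Finset.mem_range.2 (h i (Finset.mem_range.1 hi))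
    · intro i _; simp
    · intro i _; simp
    · intro i _; simp
  unfold disp
  rw [Finset.sum_add_distrib]
  unfold opP opY
  rw [k1, k2, k3]

theorem value_ind (q : ℝ) (n : ℕ) (σ : Equiv.Perm ℕ) (h : ∀ i, i < n → σ i < n)
    (h' : ∀ i, i < n → σ.symm i < n) :
    F (ind (gr n σ)) (evs q 0 n) 0 0 0 = q ^ disp n σ := by
  have := trace q n σ n 0
  have e1 : (opP σ 0 0).val = 0 := by simp [opP]
  have e2 : (opY σ 0 0).val = 0 := by simp [opY]
  have e3 : mt σ 0 0 = 0 := by simp [mt]
  rw [e1, e2, e3, Nat.zero_add, opP_end n σ h, opY_end n σ h', mt_end n σ h,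
    ← Finset.range_eq_Ico, sum_open n σ h h'] at this
  rw [this]
  simp [F, ind]

/-! ### Permutations of `Fin n` -/

/-- the permutation of `ℕ` which extends a permutation of `Fin n` -/
def ext {n : ℕ} (a : Equiv.Perm (Fin n)) : Equiv.Perm ℕ where
  toFun i := if h : i < n then (a ⟨i, h⟩ : ℕ) else i
  invFun i := if h : i < n then (a.symm ⟨i, h⟩ : ℕ) else i
  left_inv i := by
    by_cases h : i < n
    · simp [h]
    · simp [h]
  right_inv i := by
    by_cases h : i < n
    · simp [h]
    · simp [h]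

theorem ext_lt {n : ℕ} (a : Equiv.Perm (Fin n)) (i : ℕ) (h : i < n) :
    ext a i = (a ⟨i, h⟩ : ℕ) := by
  show (if h : i < n then (a ⟨i, h⟩ : ℕ) else i) = _
  rw [dif_pos h]

theorem ext_symm_lt {n : ℕ} (a : Equiv.Perm (Fin n)) (i : ℕ) (h : i < n) :
    (ext a).symm i = (a.symm ⟨i, h⟩ : ℕ) := by
  show (if h : i < n then (a.symm ⟨i, h⟩ : ℕ) else i) = _
  rw [dif_pos h]

theorem ext_mem {n : ℕ} (a : Equiv.Perm (Fin n)) : ∀ i, i < n → ext a i < n := by
  intro i h; rw [ext_lt a i h]; exact (a _).2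

theorem ext_symm_mem {n : ℕ} (a : Equiv.Perm (Fin n)) : ∀ i, i < n → (ext a).symm i < n := by
  intro i h; rw [ext_symm_lt a i h]; exact (a.symm _).2

theorem gr_inj {n : ℕ} {a b : Equiv.Perm (Fin n)} (h : gr n (ext a) = gr n (ext b)) : a = b := by
  ext i
  have h1 : ((i : ℕ), ext a i) ∈ gr n (ext a) := mem_gr.2 ⟨i.2, rfl⟩
  rw [h] at h1
  have h2 := (mem_gr.1 h1).2
  rw [ext_lt b i i.2, ext_lt a i i.2] at h2
  exact h2.symm

/-- a matching of `{0, ..., n - 1}` with itself is a permutation -/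
theorem exists_perm {n : ℕ} {M : Multiset (ℕ × ℕ)} (h1 : M.map Prod.fst = (Finset.range n).val)
    (h2 : M.map Prod.snd = (Finset.range n).val) : ∃ a : Equiv.Perm (Fin n), M = gr n (ext a) := by
  classical
  have hinj : ∀ z ∈ M, ∀ z' ∈ M, z.1 = z'.1 → z = z' := by
    intro z hz z' hz' h
    have := Multiset.inj_on_of_nodup_map (f := Prod.fst) (s := M) (by rw [h1]; exact (Finset.range n).nodup)
    exact this z hz z' hz' h
  have hex : ∀ i : Fin n, ∃ y : Fin n, ((i : ℕ), (y : ℕ)) ∈ M := by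
    intro i
    have : (i : ℕ) ∈ M.map Prod.fst := by rw [h1]; exact Finset.mem_range.2 i.2
    rw [Multiset.mem_map] at this
    obtain ⟨⟨x, y⟩, hz, hx⟩ := this
    have hy : y ∈ M.map Prod.snd := Multiset.mem_map.2 ⟨(x, y), hz, rfl⟩
    rw [h2] at hy
    have hy' : y < n := Finset.mem_range.1 hy
    refine ⟨⟨y, hy'⟩, ?_⟩
    have hx' : x = (i : ℕ) := hx
    rw [← hx']
    exact hz
  choose α hα using hex
  -- the matching as an image of the range
  let β : ℕ → ℕ := fun i => if h : i < n then (α ⟨i, h⟩ : ℕ) else i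
  have hM : M = (Finset.range n).val.map (fun i => (i, β i)) := by
    rw [← h1, Multiset.map_map]
    conv_lhs => rw [← Multiset.map_id M]
    refine Multiset.map_congr rfl fun z hz => ?_
    have hz1 : z.1 < n := by
      have : z.1 ∈ M.map Prod.fst := Multiset.mem_map.2 ⟨z, hz, rfl⟩
      rw [h1] at this
      exact Finset.mem_range.1 this
    have : z = (z.1, β z.1) := by
      refine hinj z hz _ ?_ rfl
      show (z.1, if h : z.1 < n then (α ⟨z.1, h⟩ : ℕ) else z.1) ∈ M
      rw [dif_pos hz1]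
      exact hα ⟨z.1, hz1⟩
    exact this
  have hnd : ((Finset.range n).val.map β).Nodup := by
    have : (Finset.range n).val.map β = (Finset.range n).val := by
      conv_rhs => rw [← h2, hM, Multiset.map_map]
      rfl
    rw [this]; exact (Finset.range n).nodup
  have hinjα : Function.Injective α := by
    intro i j hij
    have hb := Multiset.inj_on_of_nodup_map hnd i (Finset.mem_range.2 i.2) j (Finset.mem_range.2 j.2)
      (by
        show (if h : (i : ℕ) < n then (α ⟨i, h⟩ : ℕ) else i) =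
          (if h : (j : ℕ) < n then (α ⟨j, h⟩ : ℕ) else j)
        rw [dif_pos i.2, dif_pos j.2]
        exact congrArg Fin.val hij)
    exact Fin.ext hb
  refine ⟨Equiv.ofBijective α (Finite.injective_iff_bijective.1 hinjα), ?_⟩
  rw [hM]
  unfold gr
  refine Multiset.map_congr rfl fun i hi => ?_
  have hi' : i < n := Finset.mem_range.1 hi
  rw [ext_lt _ i hi']
  show (i, if h : i < n then (α ⟨i, h⟩ : ℕ) else i) = _
  rw [dif_pos hi']
  rfl

/-- strong up-sets: closed under exchanging the entries `i` and `j` of an inversion -/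
def StrongUp {n : ℕ} (A : Finset (Equiv.Perm (Fin n))) : Prop :=
  ∀ a ∈ A, ∀ i j : Fin n, i < j → a.symm j < a.symm i → Equiv.swap i j * a ∈ A

/-- the indicator of a family of permutations -/
noncomputable def indF {n : ℕ} (A : Finset (Equiv.Perm (Fin n))) : Multiset (ℕ × ℕ) → ℝ :=
  fun M => ∑ a ∈ A, ind (gr n (ext a)) M

theorem indF_eq {n : ℕ} (A : Finset (Equiv.Perm (Fin n))) (M : Multiset (ℕ × ℕ)) :
    (∃ a ∈ A, M = gr n (ext a) ∧ indF A M = 1) ∨ ((∀ a ∈ A, M ≠ gr n (ext a)) ∧ indF A M = 0) := by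
  by_cases h : ∃ a ∈ A, M = gr n (ext a)
  · obtain ⟨a, ha, rfl⟩ := h
    refine Or.inl ⟨a, ha, rfl, ?_⟩
    unfold indF
    rw [Finset.sum_eq_single a]
    · simp [ind]
    · intro b _ hb
      unfold ind
      rw [if_neg]
      intro h
      exact hb (gr_inj h).symm
    · intro h; exact absurd ha h
  · push Not at h
    refine Or.inr ⟨h, ?_⟩
    unfold indF
    refine Finset.sum_eq_zero fun a ha => ?_
    unfold ind
    rw [if_neg (h a ha)]

theorem indF_nonneg {n : ℕ} (A : Finset (Equiv.Perm (Fin n))) (M : Multiset (ℕ × ℕ)) :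
    0 ≤ indF A M := by
  rcases indF_eq A M with ⟨_, _, _, h⟩ | ⟨_, h⟩ <;> rw [h]; exact zero_le_one

theorem indF_le {n : ℕ} (A : Finset (Equiv.Perm (Fin n))) (M : Multiset (ℕ × ℕ)) :
    indF A M ≤ 1 := by
  rcases indF_eq A M with ⟨_, _, _, h⟩ | ⟨_, h⟩ <;> rw [h]; exact zero_le_one

theorem indF_mul {n : ℕ} [DecidableEq (Equiv.Perm (Fin n))] (A B : Finset (Equiv.Perm (Fin n)))
    (M : Multiset (ℕ × ℕ)) : indF A M * indF B M = indF (A ∩ B) M := by
  rcases indF_eq A M with ⟨a, ha, hM, h⟩ | ⟨h', h⟩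
  · rcases indF_eq B M with ⟨b, hb, hM', k⟩ | ⟨k', k⟩
    · have hab : a = b := gr_inj (hM.symm.trans hM')
      subst hab
      rcases indF_eq (A ∩ B) M with ⟨_, _, _, l⟩ | ⟨l', l⟩
      · rw [h, k, l, mul_one]
      · exact absurd hM (l' a (Finset.mem_inter.2 ⟨ha, hb⟩))
    · rcases indF_eq (A ∩ B) M with ⟨c, hc, hM', l⟩ | ⟨l', l⟩
      · exact absurd hM' (k' c (Finset.mem_inter.1 hc).2)
      · rw [k, l, mul_zero]
  · rcases indF_eq (A ∩ B) M with ⟨c, hc, hM', l⟩ | ⟨l', l⟩
    · exact absurd hM' (h' c (Finset.mem_inter.1 hc).1)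
    · rw [h, l, zero_mul]

theorem inc_indF {n : ℕ} {A : Finset (Equiv.Perm (Fin n))} (hA : StrongUp A) : Inc (indF A) := by
  intro M x t y k hxt hyk
  rcases indF_eq A ((x, k) ::ₘ (t, y) ::ₘ M) with ⟨a, ha, hM, h⟩ | ⟨h', h⟩
  · rcases eq_or_lt_of_le hyk with rfl | hyk
    · exact le_rfl
    have m1 : (x, k) ∈ gr n (ext a) := by rw [← hM]; exact Multiset.mem_cons_self _ _
    have m2 : (t, y) ∈ gr n (ext a) := by
      rw [← hM]; exact Multiset.mem_cons_of_mem (Multiset.mem_cons_self _ _)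
    obtain ⟨hx, hxk⟩ := mem_gr.1 m1
    obtain ⟨ht, hty⟩ := mem_gr.1 m2
    have hxt' : x ≠ t := by
      rintro rfl
      rw [hxk] at hty
      omega
    have hkn : k < n := by rw [← hxk]; exact ext_mem a x hx
    have hyn : y < n := by rw [← hty]; exact ext_mem a t ht
    have ax : a ⟨x, hx⟩ = ⟨k, hkn⟩ := by
      apply Fin.ext; rw [← ext_lt a x hx]; exact hxk
    have at' : a ⟨t, ht⟩ = ⟨y, hyn⟩ := by
      apply Fin.ext; rw [← ext_lt a t ht]; exact hty
    have sx : a.symm ⟨k, hkn⟩ = ⟨x, hx⟩ := by rw [← ax, Equiv.symm_apply_apply]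
    have st : a.symm ⟨y, hyn⟩ = ⟨t, ht⟩ := by rw [← at', Equiv.symm_apply_apply]
    have hin : Equiv.swap (⟨y, hyn⟩ : Fin n) ⟨k, hkn⟩ * a ∈ A := by
      refine hA a ha _ _ hyk ?_
      rw [sx, st]
      exact lt_of_le_of_ne hxt (fun e => hxt' (Fin.mk.inj_iff.1 e))
    have hgr : (x, y) ::ₘ (t, k) ::ₘ M =
        gr n (ext (Equiv.swap (⟨y, hyn⟩ : Fin n) ⟨k, hkn⟩ * a)) := by
      have hR : (Finset.range n).val = x ::ₘ t ::ₘ (((Finset.range n).val.erase x).erase t) := by
        have hxm : x ∈ (Finset.range n).val := Finset.mem_range.2 hx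
        have htm : t ∈ (Finset.range n).val := Finset.mem_range.2 ht
        rw [Multiset.cons_erase ((Multiset.mem_erase_of_ne hxt'.symm).2 htm),
          Multiset.cons_erase hxm]
      have hMe : M = (((Finset.range n).val.erase x).erase t).map (fun i => (i, ext a i)) := by
        have := hM
        unfold gr at this
        rw [hR, Multiset.map_cons, Multiset.map_cons, hxk, hty] at this
        exact (Multiset.cons_inj_right _).1 ((Multiset.cons_inj_right _).1 this)
      unfold gr
      rw [hR, Multiset.map_cons, Multiset.map_cons]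
      have e1 : ext (Equiv.swap (⟨y, hyn⟩ : Fin n) ⟨k, hkn⟩ * a) x = y := by
        rw [ext_lt _ x hx, Equiv.Perm.mul_apply, ax, Equiv.swap_apply_right]
      have e2 : ext (Equiv.swap (⟨y, hyn⟩ : Fin n) ⟨k, hkn⟩ * a) t = k := by
        rw [ext_lt _ t ht, Equiv.Perm.mul_apply, at', Equiv.swap_apply_left]
      rw [e1, e2, hMe]
      congr 2
      refine Multiset.map_congr rfl fun i hi => ?_
      have hnd : (Finset.range n).val.Nodup := (Finset.range n).nodup
      have h1 : i ∈ (Finset.range n).val.erase x := Multiset.mem_of_mem_erase hi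
      have hit : i ≠ t := by
        intro e
        subst e
        exact (hnd.erase x).notMem_erase hi
      have hix : i ≠ x := by
        intro e
        subst e
        exact hnd.notMem_erase h1
      have hin' : i < n := Finset.mem_range.1 (Multiset.mem_of_mem_erase h1)
      rw [ext_lt _ i hin', ext_lt _ i hin', Equiv.Perm.mul_apply, Equiv.swap_apply_of_ne_of_ne]
      · intro e
        rw [← at'] at e
        exact hit (Fin.mk.inj_iff.1 (a.injective e))
      · intro e
        rw [← ax] at e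
        exact hix (Fin.mk.inj_iff.1 (a.injective e))
    rw [h]
    rcases indF_eq A ((x, y) ::ₘ (t, k) ::ₘ M) with ⟨_, _, _, l⟩ | ⟨l', l⟩
    · rw [l]
    · exact absurd hgr (l' _ hin)
  · rw [h]
    exact indF_nonneg A _

theorem value_indF (q : ℝ) {n : ℕ} (A : Finset (Equiv.Perm (Fin n))) :
    F (indF A) (evs q 0 n) 0 0 0 = ∑ a ∈ A, q ^ disp n (ext a) := by
  unfold indF
  rw [F_sum]
  exact Finset.sum_congr rfl fun a _ => value_ind q n (ext a) (ext_mem a) (ext_symm_mem a)

theorem value_one (q : ℝ) (n : ℕ) :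
    Z (evs q 0 n) 0 0 = ∑ a : Equiv.Perm (Fin n), q ^ disp n (ext a) := by
  rw [← value_indF]
  have h := F_one (evs q 0 n) 0 0 0
  rw [Multiset.card_zero] at h
  rw [← h]
  refine F_congr (Finset.range n).val (Finset.range n).val ?_ _ _ _ _ ?_ ?_
  · intro M h1 h2
    obtain ⟨a, ha⟩ := exists_perm h1 h2
    rcases indF_eq (Finset.univ : Finset (Equiv.Perm (Fin n))) M with ⟨_, _, _, l⟩ | ⟨l', _⟩
    · exact l.symm
    · exact absurd ha (l' a (Finset.mem_univ _))
  · rw [posL_evs]
    simp only [Multiset.map_zero, zero_add]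
    rw [← List.range_eq_range']
    rfl
  · rw [elL_evs]
    simp only [Multiset.map_zero, zero_add]
    rw [← List.range_eq_range']
    rfl

/-- positive association of the displacement measure, in product form -/
theorem main {n : ℕ} [DecidableEq (Equiv.Perm (Fin n))] {q : ℝ} (h0 : 0 ≤ q) (h1 : q ≤ 1)
    {A B : Finset (Equiv.Perm (Fin n))} (hA : StrongUp A) (hB : StrongUp B) :
    (∑ a ∈ A, q ^ disp n (ext a)) * (∑ a ∈ B, q ^ disp n (ext a)) ≤
      (∑ a ∈ A ∩ B, q ^ disp n (ext a)) * ∑ a : Equiv.Perm (Fin n), q ^ disp n (ext a) := by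
  have := posAssoc (evs q 0 n) (indF A) (indF B) (inc_indF hA) (indF_nonneg A) (indF_le A)
    (inc_indF hB) (indF_nonneg B) (indF_le B) 0 0 0 (good_evs h0 h1 n)
  rw [value_indF, value_indF, Multiset.card_zero, value_one] at this
  have e : (fun M => indF A M * indF B M) = indF (A ∩ B) := by
    funext M; exact indF_mul A B M
  rw [e, value_indF] at this
  exact this

end Pool.Agent.H906.Assoc
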