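import Pool.Agent.H906.Assoc.Core

set_option autoImplicit false

namespace Pool.Agent.H906.Assoc

/-- removing an inversion of the matched part increases the value -/
theorem mono {f : Multiset (ℕ × ℕ) → ℝ} (hf : Inc f) :
    ∀ (ev : List Ev) (_ : ∀ e ∈ ev, 0 ≤ e.w) (P Y : Multiset ℕ) (M : Multiset (ℕ × ℕ))
      (x t y k : ℕ), x ≤ t → y ≤ k →
      F f ev P Y ((x, k) ::ₘ (t, y) ::ₘ M) ≤ F f ev P Y ((x, y) ::ₘ (t, k) ::ₘ M) := by
  intro ev
  induction ev with
  | nil =>
    intro _ P Y M x t y k hx hy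
    simp only [F]
    split_ifs
    exacts [hf M x t y k hx hy, le_rfl]
  | cons e ev ih =>
    intro hw P Y M x t y k hx hy
    have hw' : ∀ e ∈ ev, 0 ≤ e.w := fun e he => hw e (List.mem_cons_of_mem _ he)
    have h0 : 0 ≤ e.w := hw _ List.mem_cons_self
    have hG : ∀ (P Y : Multiset ℕ) (a : ℕ × ℕ),
        G f e.w ev P Y (a ::ₘ (x, k) ::ₘ (t, y) ::ₘ M) ≤
          G f e.w ev P Y (a ::ₘ (x, y) ::ₘ (t, k) ::ₘ M) := by
      intro P Y a
      unfold G
      refine mul_le_mul_of_nonneg_left ?_ (pow_nonneg h0 _)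
      have := ih hw' P Y (a ::ₘ M) x t y k hx hy
      rwa [Multiset.cons_swap (t, y), Multiset.cons_swap (x, k), Multiset.cons_swap (t, k),
        Multiset.cons_swap (x, y)] at this
    have hG' : ∀ (P Y : Multiset ℕ),
        G f e.w ev P Y ((x, k) ::ₘ (t, y) ::ₘ M) ≤
          G f e.w ev P Y ((x, y) ::ₘ (t, k) ::ₘ M) := by
      intro P Y
      unfold G
      exact mul_le_mul_of_nonneg_left (ih hw' P Y M x t y k hx hy) (pow_nonneg h0 _)
    cases e with
    | pos s w =>
      rw [F_pos, F_pos]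
      exact add_le_add (Multiset.sum_map_le_sum_map _ _ fun u _ => hG _ _ _) (hG' _ _)
    | el s w =>
      rw [F_el, F_el]
      exact add_le_add (Multiset.sum_map_le_sum_map _ _ fun u _ => hG _ _ _) (hG' _ _)

/-- exchanging the element at a closed position with a smaller open element -/
theorem exEl {f : Multiset (ℕ × ℕ) → ℝ} (hf : Inc f) :
    ∀ (ev : List Ev) (_ : ∀ e ∈ ev, 0 ≤ e.w) (P Y : Multiset ℕ) (M : Multiset (ℕ × ℕ))
      (x y k : ℕ), y ≤ k → (∀ t ∈ posL ev, x ≤ t) →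
      F f ev P (y ::ₘ Y) ((x, k) ::ₘ M) ≤ F f ev P (k ::ₘ Y) ((x, y) ::ₘ M) := by
  intro ev
  induction ev with
  | nil =>
    intro _ P Y M x y k hy _
    simp only [F, Multiset.cons_ne_zero, and_false, if_false, le_refl]
  | cons e ev ih =>
    intro hw P Y M x y k hy hx
    have hw' : ∀ e ∈ ev, 0 ≤ e.w := fun e he => hw e (List.mem_cons_of_mem _ he)
    have h0 : 0 ≤ e.w := hw _ List.mem_cons_self
    have hx' : ∀ t ∈ posL ev, x ≤ t := by
      intro t ht
      cases e with
      | pos s w => exact hx t (List.mem_cons_of_mem _ ht)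
      | el s w => exact hx t ht
    have hG : ∀ (P Y : Multiset ℕ) (a : ℕ × ℕ),
        G f e.w ev P (y ::ₘ Y) (a ::ₘ (x, k) ::ₘ M) ≤
          G f e.w ev P (k ::ₘ Y) (a ::ₘ (x, y) ::ₘ M) := by
      intro P Y a
      unfold G
      rw [Multiset.card_cons, Multiset.card_cons]
      refine mul_le_mul_of_nonneg_left ?_ (pow_nonneg h0 _)
      have := ih hw' P Y (a ::ₘ M) x y k hy hx'
      rwa [Multiset.cons_swap (x, k), Multiset.cons_swap (x, y)] at this
    have hG' : ∀ (P Y : Multiset ℕ),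
        G f e.w ev P (y ::ₘ Y) ((x, k) ::ₘ M) ≤ G f e.w ev P (k ::ₘ Y) ((x, y) ::ₘ M) := by
      intro P Y
      unfold G
      rw [Multiset.card_cons, Multiset.card_cons]
      exact mul_le_mul_of_nonneg_left (ih hw' P Y M x y k hy hx') (pow_nonneg h0 _)
    cases e with
    | pos s w =>
      rw [F_pos, F_pos, Multiset.map_cons, Multiset.map_cons, Multiset.sum_cons,
        Multiset.sum_cons, Multiset.erase_cons_head, Multiset.erase_cons_head]
      refine add_le_add (add_le_add ?_ ?_) (hG' _ _)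
      · unfold G
        refine mul_le_mul_of_nonneg_left ?_ (pow_nonneg h0 _)
        have := mono hf ev hw' P Y M x s y k (hx s List.mem_cons_self) hy
        rwa [Multiset.cons_swap (x, k), Multiset.cons_swap (x, y)] at this
      · refine Multiset.sum_map_le_sum_map _ _ fun u hu => ?_
        rw [erase_cons' y hu, erase_cons' k hu]
        exact hG _ _ _
    | el s w =>
      rw [F_el, F_el]
      refine add_le_add (Multiset.sum_map_le_sum_map _ _ fun u _ => hG _ _ _) ?_
      have := hG' P (s ::ₘ Y)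
      rwa [Multiset.cons_swap y, Multiset.cons_swap k] at this

/-- exchanging the position of a matched element with a smaller open position -/
theorem exPos {f : Multiset (ℕ × ℕ) → ℝ} (hf : Inc f) (ev : List Ev) (hw : ∀ e ∈ ev, 0 ≤ e.w)
    (P Y : Multiset ℕ) (M : Multiset (ℕ × ℕ)) (x x' k : ℕ) (hx : x ≤ x')
    (hk : ∀ s ∈ elL ev, k ≤ s) :
    F f ev (x ::ₘ P) Y ((x', k) ::ₘ M) ≤ F f ev (x' ::ₘ P) Y ((x, k) ::ₘ M) := by
  have hw' : ∀ e ∈ flipL ev, 0 ≤ e.w := by
    intro e he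
    rw [flipL, List.mem_map] at he
    obtain ⟨e', he', rfl⟩ := he
    have := hw e' he'
    cases e' <;> exact this
  have h := exEl hf.flip (flipL ev) hw' Y P (M.map Prod.swap) k x x' hx
    (by rw [posL_flip]; exact hk)
  rw [F_flip, F_flip] at h
  simpa [Multiset.map_cons, Multiset.map_map, Function.comp_def, Multiset.map_id'] using h

/-! ### The partition function -/

theorem step_ineq {p y0 y1 y2 y3 : ℝ} (hp : 1 ≤ p) (h0 : 0 ≤ y0) (h1 : 0 ≤ y1) (h2 : 0 ≤ y2)
    (h3 : 0 ≤ y3) (c1 : y1 ^ 2 ≤ y0 * (y1 + y2)) (c2 : y2 ^ 2 ≤ y1 * (y2 + y3)) :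
    ((p + 1) * y1 + y2) ^ 2 ≤ (p * y0 + y1) * (((p + 1) * y1 + y2) + ((p + 2) * y2 + y3)) := by
  -- the key inequality `y1 * y2 ≤ y0 * (2 * y2 + y3)`
  have key : y1 * y2 ≤ y0 * (2 * y2 + y3) := by
    rcases eq_or_lt_of_le h2 with e2 | p2
    · rw [← e2]; nlinarith [mul_nonneg h0 h3]
    · rcases eq_or_lt_of_le h1 with e1 | p1
      · rw [← e1]; nlinarith [mul_nonneg h0 h3, mul_nonneg h0 h2]
      · have a1 : y1 ^ 2 * y2 ≤ y0 * (y1 + y2) * y2 := mul_le_mul_of_nonneg_right c1 h2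
        have a2 : y0 * y2 ^ 2 ≤ y0 * (y1 * (y2 + y3)) := mul_le_mul_of_nonneg_left c2 h0
        have a3 : y1 * (y1 * y2) ≤ y1 * (y0 * (2 * y2 + y3)) := by nlinarith
        exact le_of_mul_le_mul_left a3 p1
  have b1 : p * (p + 1) * y1 ^ 2 ≤ p * (p + 1) * (y0 * (y1 + y2)) :=
    mul_le_mul_of_nonneg_left c1 (by nlinarith)
  have b2 : p * (y1 * y2) ≤ p * (y0 * (2 * y2 + y3)) :=
    mul_le_mul_of_nonneg_left key (by linarith)
  nlinarith [b1, b2, c2]

/-- `z₁² ≤ z₀ (z₁ + z₂)` for consecutive values of the partition function -/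
theorem Zcond : ∀ (ev : List Ev) (_ : ∀ e ∈ ev, 0 ≤ e.w ∧ e.w ≤ 1) (p e : ℕ),
    Z ev (p + 1) (e + 1) ^ 2 ≤ Z ev p e * (Z ev (p + 1) (e + 1) + Z ev (p + 2) (e + 2)) := by
  intro ev
  induction ev with
  | nil => intro _ p e; simp [Z]
  | cons v ev ih =>
    intro hw p e
    have hw' : ∀ e ∈ ev, 0 ≤ e.w ∧ e.w ≤ 1 := fun e he => hw e (List.mem_cons_of_mem _ he)
    have h0 : 0 ≤ v.w := (hw _ List.mem_cons_self).1
    have h1 : v.w ≤ 1 := (hw _ List.mem_cons_self).2
    have hn : ∀ p e : ℕ, 0 ≤ Z ev p e := Z_nonneg ev (fun e he => (hw' e he).1)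
    -- the values after the event
    have hy : ∀ p e : ℕ, (v.w ^ ((p + 1) + (e + 1)) * Z ev (p + 1) (e + 1)) ^ 2 ≤
        (v.w ^ (p + e) * Z ev p e) * (v.w ^ ((p + 1) + (e + 1)) * Z ev (p + 1) (e + 1) +
          v.w ^ ((p + 2) + (e + 2)) * Z ev (p + 2) (e + 2)) := by
      intro p e
      have h := ih hw' p e
      have e1 : v.w ^ ((p + 1) + (e + 1)) = v.w ^ (p + e) * v.w ^ 2 := by
        rw [← pow_add]; congr 1; ring
      have e2 : v.w ^ ((p + 2) + (e + 2)) = v.w ^ (p + e) * v.w ^ 4 := by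
        rw [← pow_add]; congr 1; ring
      rw [e1, e2]
      have ha : 0 ≤ v.w ^ (p + e) := pow_nonneg h0 _
      have hw2 : v.w ^ 4 ≤ v.w ^ 2 := pow_le_pow_of_le_one h0 h1 (by norm_num)
      have hz0 := hn p e
      have hz1 := hn (p + 1) (e + 1)
      have hz2 := hn (p + 2) (e + 2)
      have k1 : v.w ^ 4 * Z ev (p + 1) (e + 1) ^ 2 ≤
          v.w ^ 4 * (Z ev p e * (Z ev (p + 1) (e + 1) + Z ev (p + 2) (e + 2))) :=
        mul_le_mul_of_nonneg_left h (pow_nonneg h0 _)
      have k2 : v.w ^ 4 * (Z ev p e * Z ev (p + 1) (e + 1)) ≤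
          v.w ^ 2 * (Z ev p e * Z ev (p + 1) (e + 1)) :=
        mul_le_mul_of_nonneg_right hw2 (mul_nonneg hz0 hz1)
      have k3 : v.w ^ 4 * Z ev (p + 1) (e + 1) ^ 2 ≤
          Z ev p e * (v.w ^ 2 * Z ev (p + 1) (e + 1) + v.w ^ 4 * Z ev (p + 2) (e + 2)) := by
        nlinarith
      have k4 := mul_le_mul_of_nonneg_left k3 (mul_nonneg ha ha)
      calc (v.w ^ (p + e) * v.w ^ 2 * Z ev (p + 1) (e + 1)) ^ 2
          = v.w ^ (p + e) * v.w ^ (p + e) * (v.w ^ 4 * Z ev (p + 1) (e + 1) ^ 2) := by ring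
        _ ≤ _ := k4
        _ = _ := by ring
    have hyn : ∀ p e : ℕ, 0 ≤ v.w ^ (p + e) * Z ev p e := fun p e =>
      mul_nonneg (pow_nonneg h0 _) (hn p e)
    cases v with
    | pos t w =>
      simp only [Ev.w] at hy hyn
      rcases Nat.eq_zero_or_pos e with he | he
      · subst he
        have c := hy (p + 1) 0
        have n1 := hyn (p + 1) 0
        have n2 := hyn (p + 2) 1
        have n3 := hyn (p + 3) 2
        simp only [Z]
        norm_num [Nat.add_assoc] at c n1 n2 n3 ⊢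
        nlinarith
      · obtain ⟨e, rfl⟩ := Nat.exists_eq_add_of_le' he
        have c1 := hy p e
        have c2 := hy (p + 1) (e + 1)
        have n0 := hyn p e
        have n1 := hyn (p + 1) (e + 1)
        have n2 := hyn (p + 2) (e + 2)
        have n3 := hyn (p + 3) (e + 3)
        have hp : (1 : ℝ) ≤ ((e + 1 : ℕ) : ℝ) := by
          have : (1 : ℕ) ≤ e + 1 := Nat.le_add_left _ _
          exact_mod_cast this
        have := step_ineq hp n0 n1 n2 n3 (by simpa [Nat.add_assoc] using c1)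
          (by simpa [Nat.add_assoc] using c2)
        simp only [Z]
        push_cast at this ⊢
        simp only [Nat.add_assoc] at this ⊢
        norm_num at this ⊢
        convert this using 2 <;> ring_nf
    | el k w =>
      simp only [Ev.w] at hy hyn
      rcases Nat.eq_zero_or_pos p with he | he
      · subst he
        have c := hy 0 (e + 1)
        have n1 := hyn 0 (e + 1)
        have n2 := hyn 1 (e + 2)
        have n3 := hyn 2 (e + 3)
        simp only [Z]
        norm_num [Nat.add_assoc] at c n1 n2 n3 ⊢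
        nlinarith
      · obtain ⟨p, rfl⟩ := Nat.exists_eq_add_of_le' he
        have c1 := hy p e
        have c2 := hy (p + 1) (e + 1)
        have n0 := hyn p e
        have n1 := hyn (p + 1) (e + 1)
        have n2 := hyn (p + 2) (e + 2)
        have n3 := hyn (p + 3) (e + 3)
        have hp : (1 : ℝ) ≤ ((p + 1 : ℕ) : ℝ) := by
          have : (1 : ℕ) ≤ p + 1 := Nat.le_add_left _ _
          exact_mod_cast this
        have := step_ineq hp n0 n1 n2 n3 (by simpa [Nat.add_assoc] using c1)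
          (by simpa [Nat.add_assoc] using c2)
        simp only [Z]
        push_cast at this ⊢
        simp only [Nat.add_assoc] at this ⊢
        norm_num at this ⊢
        convert this using 2 <;> ring_nf

end Pool.Agent.H906.Assoc
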