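import Pool.Agent.H906.Assoc.Gain

set_option autoImplicit false

namespace Pool.Agent.H906.Assoc

theorem alg {p z0 z1 z2 SA SC B Dl Ep : ℝ} (hp : 0 ≤ p) (hz1 : 0 < z1) (hz2 : 0 ≤ z2)
    (hSA : 0 ≤ SA) (hB : 0 ≤ B) (hDl : 0 ≤ Dl) (hEp : 0 ≤ Ep)
    (h1 : SC * z0 ≤ SA * z1) (h2 : Dl ≤ B) (h3 : Ep * z1 ≤ B * z2)
    (h4 : p * (Dl * z0) ≤ SA * z1) (h5 : p * (Ep * z0) ≤ SA * z2)
    (hC : (p = 0 ∧ SA = 0 ∧ SC = 0) ∨ (0 < z0 ∧ z1 ^ 2 ≤ z0 * (z1 + z2))) :
    (SC + Dl + Ep) * (p * z0 + z1) ≤ (SA + B) * ((p + 1) * z1 + z2) := by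
  rcases hC with ⟨rfl, rfl, rfl⟩ | ⟨hz0, hC⟩
  · nlinarith
  · -- normalised values
    obtain ⟨a, ha⟩ : ∃ a, SA = z0 * a := ⟨SA / z0, by field_simp⟩
    obtain ⟨b, hb⟩ : ∃ b, B = z1 * b := ⟨B / z1, by field_simp⟩
    obtain ⟨c, hc⟩ : ∃ c, SC = z1 * c := ⟨SC / z1, by field_simp⟩
    obtain ⟨d, hd⟩ : ∃ d, Dl = z1 * d := ⟨Dl / z1, by field_simp⟩
    have hE : ∃ ε, Ep = z2 * ε ∧ 0 ≤ ε ∧ ε ≤ b ∧ p * ε ≤ a := by
      rcases eq_or_lt_of_le hz2 with e | pz
      · refine ⟨0, ?_, le_rfl, ?_, ?_⟩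
        · rw [← e, mul_zero] at h3
          rw [mul_zero]
          have := nonpos_of_mul_nonpos_left h3 hz1
          linarith
        · rw [hb] at hB; exact nonneg_of_mul_nonneg_right hB hz1
        · rw [mul_zero]; rw [ha] at hSA; exact nonneg_of_mul_nonneg_right hSA hz0
      · refine ⟨Ep / z2, by field_simp, div_nonneg hEp hz2, ?_, ?_⟩
        · rw [div_le_iff₀ pz]
          rw [hb] at h3
          exact le_of_mul_le_mul_right (by linarith : Ep * z1 ≤ b * z2 * z1) hz1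
        · rw [mul_div_assoc', div_le_iff₀ pz]
          rw [ha] at h5
          exact le_of_mul_le_mul_right (by linarith : p * Ep * z0 ≤ a * z2 * z0) hz0
    obtain ⟨ε, hε, hε0, hεb, hεa⟩ := hE
    have hca : c ≤ a := by
      rw [ha, hc] at h1
      have : c * (z0 * z1) ≤ a * (z0 * z1) := by nlinarith
      exact le_of_mul_le_mul_right this (mul_pos hz0 hz1)
    have hdb : d ≤ b := by
      rw [hd, hb] at h2
      exact le_of_mul_le_mul_left h2 hz1
    have hda : p * d ≤ a := by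
      rw [ha, hd] at h4
      have : p * d * (z0 * z1) ≤ a * (z0 * z1) := by nlinarith
      exact le_of_mul_le_mul_right this (mul_pos hz0 hz1)
    have hd0 : 0 ≤ d := by rw [hd] at hDl; exact nonneg_of_mul_nonneg_right hDl hz1
    have hm : ∃ m, 0 ≤ m ∧ d ≤ m ∧ ε ≤ m ∧ m ≤ b ∧ p * m ≤ a := by
      rcases le_total d ε with h | h
      · exact ⟨ε, hε0, h, le_rfl, hεb, hεa⟩
      · exact ⟨d, hd0, le_rfl, h, hdb, hda⟩
    obtain ⟨m, hm0, hdm, hεm, hmb, hma⟩ := hm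
    rw [ha, hb, hc, hd, hε]
    have t1 : (z1 * c + z1 * d + z2 * ε) * (p * z0 + z1) ≤
        (z1 * a + (z1 + z2) * m) * (p * z0 + z1) := by
      refine mul_le_mul_of_nonneg_right ?_ (by positivity)
      nlinarith [mul_le_mul_of_nonneg_left hca hz1.le, mul_le_mul_of_nonneg_left hdm hz1.le,
        mul_le_mul_of_nonneg_left hεm hz2]
    have t2 : (z0 * a + z1 * m) * ((p + 1) * z1 + z2) ≤
        (z0 * a + z1 * b) * ((p + 1) * z1 + z2) := by
      refine mul_le_mul_of_nonneg_right ?_ (by positivity)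
      nlinarith [mul_le_mul_of_nonneg_left hmb hz1.le]
    have t3 : p * m * (z0 * (z1 + z2) - z1 ^ 2) ≤ a * (z0 * (z1 + z2) - z1 ^ 2) :=
      mul_le_mul_of_nonneg_right hma (by linarith)
    nlinarith [t1, t2, t3]

/-- the statement of the gain lemma for a list of events -/
def Gain (ev : List Ev) : Prop :=
  ∀ (f : Multiset (ℕ × ℕ) → ℝ), Inc f → (∀ M, 0 ≤ f M) → (∀ M, f M ≤ 1) →
    ∀ (P Y : Multiset ℕ) (M : Multiset (ℕ × ℕ)) (x y : ℕ), Good ev (x ::ₘ P) (y ::ₘ Y) →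
      F f ev (x ::ₘ P) (y ::ₘ Y) M * Z ev P.card Y.card ≤
        F f ev P Y ((x, y) ::ₘ M) * Z ev (P.card + 1) (Y.card + 1)

theorem flipL_flipL (ev : List Ev) : flipL (flipL ev) = ev := by
  unfold flipL
  rw [List.map_map]
  conv_rhs => rw [← List.map_id ev]
  refine List.map_congr_left fun e _ => ?_
  cases e <;> rfl

theorem map_swap_swap (M : Multiset (ℕ × ℕ)) : (M.map Prod.swap).map Prod.swap = M := by
  rw [Multiset.map_map, Prod.swap_swap_eq, Multiset.map_id]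

theorem F_flip' (f : Multiset (ℕ × ℕ) → ℝ) (ev : List Ev) (P Y : Multiset ℕ)
    (M : Multiset (ℕ × ℕ)) :
    F f (flipL ev) Y P M = F (fun M => f (M.map Prod.swap)) ev P Y (M.map Prod.swap) := by
  rw [← F_flip]
  simp only [map_swap_swap]

theorem Gain.flip {ev : List Ev} (h : Gain ev) : Gain (flipL ev) := by
  intro f hf h0 h1 P Y M x y hg
  have hg' := hg.flip
  rw [flipL_flipL] at hg'
  have := h (fun M => f (M.map Prod.swap)) hf.flip (fun M => h0 _) (fun M => h1 _) Y P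
    (M.map Prod.swap) y x hg'
  rw [F_flip' f, F_flip' f, Z_flip, Z_flip, Multiset.map_cons]
  exact this

theorem gainG {ev : List Ev} (h : Gain ev) {f : Multiset (ℕ × ℕ) → ℝ} (hf : Inc f)
    (h0 : ∀ M, 0 ≤ f M) (h1 : ∀ M, f M ≤ 1) {w : ℝ} (hw : 0 ≤ w) (P Y : Multiset ℕ)
    (M : Multiset (ℕ × ℕ)) (x y : ℕ) (hg : Good ev (x ::ₘ P) (y ::ₘ Y)) :
    G f w ev (x ::ₘ P) (y ::ₘ Y) M * (w ^ (P.card + Y.card) * Z ev P.card Y.card) ≤
      G f w ev P Y ((x, y) ::ₘ M) *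
        (w ^ ((P.card + 1) + (Y.card + 1)) * Z ev (P.card + 1) (Y.card + 1)) := by
  have := h f hf h0 h1 P Y M x y hg
  unfold G
  rw [Multiset.card_cons, Multiset.card_cons]
  have h2 := mul_le_mul_of_nonneg_left this
    (mul_nonneg (pow_nonneg hw ((P.card + 1) + (Y.card + 1))) (pow_nonneg hw (P.card + Y.card)))
  calc _ = w ^ ((P.card + 1) + (Y.card + 1)) * w ^ (P.card + Y.card) *
        (F f ev (x ::ₘ P) (y ::ₘ Y) M * Z ev P.card Y.card) := by ring
    _ ≤ _ := h2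
    _ = _ := by ring

theorem sum_map_mul_le {P : Multiset ℕ} {A C : ℕ → ℝ} {a c : ℝ}
    (h : ∀ u ∈ P, C u * c ≤ A u * a) : (P.map C).sum * c ≤ (P.map A).sum * a := by
  have := Multiset.sum_map_le_sum_map _ _ h
  rwa [Multiset.sum_map_mul_right, Multiset.sum_map_mul_right] at this

theorem card_mul_le {P : Multiset ℕ} {A : ℕ → ℝ} {a c : ℝ}
    (h : ∀ u ∈ P, c ≤ A u * a) : (P.card : ℝ) * c ≤ (P.map A).sum * a := by
  have := Multiset.sum_map_le_sum_map (fun _ => c) _ h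
  rwa [Multiset.sum_map_mul_right, Multiset.map_const', Multiset.sum_replicate,
    nsmul_eq_mul] at this

theorem Good.tail {e : Ev} {ev : List Ev} {P Y P' Y' : Multiset ℕ} (h : Good (e :: ev) P Y)
    (hP : ∀ u ∈ P', ∀ t ∈ posL ev, u ≤ t) (hY : ∀ v ∈ Y', ∀ k ∈ elL ev, v ≤ k) :
    Good ev P' Y' := by
  refine ⟨hP, hY, ?_, ?_, fun e he => h.hw e (List.mem_cons_of_mem _ he)⟩
  · have := h.sP
    cases e with
    | pos t w => exact (List.pairwise_cons.1 this).2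
    | el k w => exact this
  · have := h.sY
    cases e with
    | pos t w => exact this
    | el k w => exact (List.pairwise_cons.1 this).2

theorem gain_el {ev : List Ev} (ih : Gain ev) (k : ℕ) (w : ℝ) : Gain (Ev.el k w :: ev) := by
  intro f hf h0 h1 P Y M x y hg
  have hw0 : 0 ≤ w := (hg.hw _ List.mem_cons_self).1
  have hwl : ∀ e ∈ ev, 0 ≤ e.w := fun e he => (hg.hw e (List.mem_cons_of_mem _ he)).1
  have hwl' : ∀ e ∈ ev, 0 ≤ e.w ∧ e.w ≤ 1 := fun e he => hg.hw e (List.mem_cons_of_mem _ he)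
  -- label comparisons
  have hkf : ∀ s ∈ elL ev, k ≤ s := (List.pairwise_cons.1 hg.sY).1
  have hxP : ∀ u ∈ x ::ₘ P, ∀ t ∈ posL ev, u ≤ t := hg.hP
  have hyk : y ≤ k := hg.hY y (Multiset.mem_cons_self _ _) k List.mem_cons_self
  have hyY : ∀ v ∈ k ::ₘ y ::ₘ Y, ∀ s ∈ elL ev, v ≤ s := by
    intro v hv s hs
    rcases Multiset.mem_cons.1 hv with rfl | hv
    · exact hkf s hs
    · exact hg.hY v hv s (List.mem_cons_of_mem _ hs)
  have good : ∀ P' Y' : Multiset ℕ, (∀ u ∈ P', u ∈ x ::ₘ P) → (∀ v ∈ Y', v ∈ k ::ₘ y ::ₘ Y) →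
      Good ev P' Y' := fun P' Y' a b =>
    hg.tail (fun u hu => hxP u (a u hu)) (fun v hv => hyY v (b v hv))
  -- the three partition functions
  obtain ⟨p, hp⟩ : ∃ p, p = P.card := ⟨_, rfl⟩
  obtain ⟨e, he⟩ : ∃ e, e = Y.card := ⟨_, rfl⟩
  set z0 : ℝ := w ^ ((p - 1) + e) * Z ev (p - 1) e with hz0
  set z1 : ℝ := w ^ (p + (e + 1)) * Z ev p (e + 1) with hz1
  set z2 : ℝ := w ^ ((p + 1) + (e + 2)) * Z ev (p + 1) (e + 2) with hz2
  have n0 : 0 ≤ z0 := mul_nonneg (pow_nonneg hw0 _) (Z_nonneg ev hwl _ _)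
  have n1 : 0 ≤ z1 := mul_nonneg (pow_nonneg hw0 _) (Z_nonneg ev hwl _ _)
  have n2 : 0 ≤ z2 := mul_nonneg (pow_nonneg hw0 _) (Z_nonneg ev hwl _ _)
  have hZ1 : Z (Ev.el k w :: ev) P.card Y.card = p * z0 + z1 := by
    rw [← hp, ← he]; rfl
  have hZ2 : Z (Ev.el k w :: ev) (P.card + 1) (Y.card + 1) = (p + 1) * z1 + z2 := by
    rw [← hp, ← he]
    show ((p + 1 : ℕ) : ℝ) * (w ^ ((p + 1 - 1) + (e + 1)) * Z ev (p + 1 - 1) (e + 1)) +
      w ^ ((p + 1) + (e + 1 + 1)) * Z ev (p + 1) (e + 1 + 1) = _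
    rw [Nat.add_sub_cancel]
    push_cast
    rfl
  have Fn : ∀ (P Y : Multiset ℕ) (M : Multiset (ℕ × ℕ)), 0 ≤ G f w ev P Y M := fun P Y M =>
    mul_nonneg (pow_nonneg hw0 _) (F_nonneg h0 ev hwl _ _ _)
  -- the two values
  have hL : F f (Ev.el k w :: ev) (x ::ₘ P) (y ::ₘ Y) M =
      (P.map (fun u => G f w ev (x ::ₘ P.erase u) (y ::ₘ Y) ((u, k) ::ₘ M))).sum +
        G f w ev P (y ::ₘ Y) ((x, k) ::ₘ M) + G f w ev (x ::ₘ P) (k ::ₘ y ::ₘ Y) M := by
    rw [F_el, Multiset.map_cons, Multiset.sum_cons, Multiset.erase_cons_head]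
    rw [add_comm (G f w ev P (y ::ₘ Y) ((x, k) ::ₘ M))]
    congr 3
    exact Multiset.map_congr rfl fun u hu => by rw [erase_cons' x hu]
  have hR := F_el f k w ev P Y ((x, y) ::ₘ M)
  -- trivial case
  have hmain : F f (Ev.el k w :: ev) (x ::ₘ P) (y ::ₘ Y) M ≤
      Z (Ev.el k w :: ev) (P.card + 1) (Y.card + 1) := by
    have := F_le_Z h1 (Ev.el k w :: ev) (fun e he => (hg.hw e he).1) (x ::ₘ P) (y ::ₘ Y) M
    rwa [Multiset.card_cons, Multiset.card_cons] at this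
  have hLn : 0 ≤ F f (Ev.el k w :: ev) (x ::ₘ P) (y ::ₘ Y) M :=
    F_nonneg h0 _ (fun e he => (hg.hw e he).1) _ _ _
  -- condition between consecutive partition functions
  have cond : ∀ a b : ℕ, (w ^ ((a + 1) + (b + 1)) * Z ev (a + 1) (b + 1)) ^ 2 ≤
      (w ^ (a + b) * Z ev a b) * ((w ^ ((a + 1) + (b + 1)) * Z ev (a + 1) (b + 1)) +
        (w ^ ((a + 2) + (b + 2)) * Z ev (a + 2) (b + 2))) := by
    intro a b
    have h := Zcond ev hwl' a b
    have hw1 : w ≤ 1 := (hg.hw _ List.mem_cons_self).2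
    have e1 : w ^ ((a + 1) + (b + 1)) = w ^ (a + b) * w ^ 2 := by
      rw [← pow_add]; congr 1; ring
    have e2 : w ^ ((a + 2) + (b + 2)) = w ^ (a + b) * w ^ 4 := by
      rw [← pow_add]; congr 1; ring
    rw [e1, e2]
    have ha : 0 ≤ w ^ (a + b) := pow_nonneg hw0 _
    have hw2 : w ^ 4 ≤ w ^ 2 := pow_le_pow_of_le_one hw0 hw1 (by norm_num)
    have m0 := Z_nonneg ev hwl a b
    have m1 := Z_nonneg ev hwl (a + 1) (b + 1)
    have k1 : w ^ 4 * Z ev (a + 1) (b + 1) ^ 2 ≤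
        w ^ 4 * (Z ev a b * (Z ev (a + 1) (b + 1) + Z ev (a + 2) (b + 2))) :=
      mul_le_mul_of_nonneg_left h (pow_nonneg hw0 _)
    have k2 : w ^ 4 * (Z ev a b * Z ev (a + 1) (b + 1)) ≤
        w ^ 2 * (Z ev a b * Z ev (a + 1) (b + 1)) :=
      mul_le_mul_of_nonneg_right hw2 (mul_nonneg m0 m1)
    have k3 : w ^ 4 * Z ev (a + 1) (b + 1) ^ 2 ≤
        Z ev a b * (w ^ 2 * Z ev (a + 1) (b + 1) + w ^ 4 * Z ev (a + 2) (b + 2)) := by
      nlinarith
    have k4 := mul_le_mul_of_nonneg_left k3 (mul_nonneg ha ha)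
    calc (w ^ (a + b) * w ^ 2 * Z ev (a + 1) (b + 1)) ^ 2
        = w ^ (a + b) * w ^ (a + b) * (w ^ 4 * Z ev (a + 1) (b + 1) ^ 2) := by ring
      _ ≤ _ := k4
      _ = _ := by ring
  have hz12 : z1 = 0 → z2 = 0 := by
    intro h
    have c := cond p (e + 1)
    have h' : w ^ (p + (e + 1)) * Z ev p (e + 1) = 0 := h
    rw [h', zero_mul] at c
    have : (w ^ ((p + 1) + (e + 1 + 1)) * Z ev (p + 1) (e + 1 + 1)) = 0 := by
      nlinarith [sq_nonneg (w ^ ((p + 1) + (e + 1 + 1)) * Z ev (p + 1) (e + 1 + 1))]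
    exact this
  rcases eq_or_lt_of_le n1 with e1 | p1
  · have e2 := hz12 e1.symm
    have : F f (Ev.el k w :: ev) (x ::ₘ P) (y ::ₘ Y) M = 0 := by
      refine le_antisymm ?_ hLn
      rw [hZ2, ← e1, e2] at hmain
      linarith
    rw [this, zero_mul]
    exact mul_nonneg (F_nonneg h0 _ (fun e he => (hg.hw e he).1) _ _ _)
      (Z_nonneg _ (fun e he => (hg.hw e he).1) _ _)
  -- main case
  have hcu : ∀ u ∈ P, (P.erase u).card = p - 1 ∧ (P.erase u).card + 1 = p := by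
    intro u hu
    rw [Multiset.card_erase_of_mem hu, Nat.pred_eq_sub_one, ← hp]
    have : 0 < p := by rw [hp]; exact Multiset.card_pos_iff_exists_mem.2 ⟨u, hu⟩
    omega
  have term1 : ∀ u ∈ P, G f w ev (x ::ₘ P.erase u) (y ::ₘ Y) ((u, k) ::ₘ M) * z0 ≤
      G f w ev (P.erase u) Y ((u, k) ::ₘ (x, y) ::ₘ M) * z1 := by
    intro u hu
    have := gainG ih hf h0 h1 hw0 (P.erase u) Y ((u, k) ::ₘ M) x y
      (good _ _ (by
        intro v hv
        rcases Multiset.mem_cons.1 hv with rfl | hv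
        · exact Multiset.mem_cons_self _ _
        · exact Multiset.mem_cons_of_mem (Multiset.mem_of_mem_erase hv))
        (fun v hv => Multiset.mem_cons_of_mem hv))
    rw [(hcu u hu).2, (hcu u hu).1, ← he, Multiset.cons_swap (x, y)] at this
    exact this
  have h2 : G f w ev P (y ::ₘ Y) ((x, k) ::ₘ M) ≤ G f w ev P (k ::ₘ Y) ((x, y) ::ₘ M) := by
    unfold G
    rw [Multiset.card_cons, Multiset.card_cons]
    exact mul_le_mul_of_nonneg_left (exEl hf ev hwl P Y M x y k hyk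
      (hxP x (Multiset.mem_cons_self _ _))) (pow_nonneg hw0 _)
  have h3 : G f w ev (x ::ₘ P) (k ::ₘ y ::ₘ Y) M * z1 ≤
      G f w ev P (k ::ₘ Y) ((x, y) ::ₘ M) * z2 := by
    have := gainG ih hf h0 h1 hw0 P (k ::ₘ Y) M x y
      (good _ _ (fun v hv => hv) (fun v hv => by rw [Multiset.cons_swap]; exact hv))
    rw [Multiset.card_cons, ← hp, ← he, Multiset.cons_swap y] at this
    exact this
  have term4 : ∀ u ∈ P, G f w ev P (y ::ₘ Y) ((x, k) ::ₘ M) * z0 ≤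
      G f w ev (P.erase u) Y ((u, k) ::ₘ (x, y) ::ₘ M) * z1 := by
    intro u hu
    rcases le_total x u with hxu | hux
    · have hPu : P = u ::ₘ P.erase u := (Multiset.cons_erase hu).symm
      have := gainG ih hf h0 h1 hw0 (P.erase u) Y ((x, k) ::ₘ M) u y
        (good _ _ (by
          rw [Multiset.cons_erase hu]
          exact fun v hv => Multiset.mem_cons_of_mem hv)
          (fun v hv => Multiset.mem_cons_of_mem hv))
      rw [Multiset.cons_erase hu, (hcu u hu).2, (hcu u hu).1, ← he] at this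
      refine this.trans (mul_le_mul_of_nonneg_right ?_ p1.le)
      unfold G
      refine mul_le_mul_of_nonneg_left ?_ (pow_nonneg hw0 _)
      have := mono hf ev hwl (P.erase u) Y M x u y k hxu hyk
      rwa [Multiset.cons_swap (x, k), Multiset.cons_swap (x, y)] at this
    · refine le_trans (mul_le_mul_of_nonneg_right ?_ n0) (term1 u hu)
      have := exPos hf ev hwl (P.erase u) (y ::ₘ Y) M u x k hux hkf
      unfold G
      rw [Multiset.cons_erase hu] at this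
      have hc : (x ::ₘ P.erase u).card = P.card := by
        rw [Multiset.card_cons, (hcu u hu).2, hp]
      rw [hc]
      exact mul_le_mul_of_nonneg_left this (pow_nonneg hw0 _)
  have term5 : ∀ u ∈ P, G f w ev (x ::ₘ P) (k ::ₘ y ::ₘ Y) M * z0 ≤
      G f w ev (P.erase u) Y ((u, k) ::ₘ (x, y) ::ₘ M) * z2 := by
    intro u hu
    have hPu : x ::ₘ P = u ::ₘ x ::ₘ P.erase u := by
      rw [Multiset.cons_swap, Multiset.cons_erase hu]
    have := gainG ih hf h0 h1 hw0 (x ::ₘ P.erase u) (y ::ₘ Y) M u k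
      (good _ _ (by rw [← hPu]; exact fun v hv => hv) (fun v hv => hv))
    rw [← hPu, Multiset.card_cons, Multiset.card_cons, (hcu u hu).2, ← he] at this
    -- this : Ep * z1 ≤ C_u * z2
    have c1 := term1 u hu
    have Cn := Fn (x ::ₘ P.erase u) (y ::ₘ Y) ((u, k) ::ₘ M)
    have k1 : G f w ev (x ::ₘ P) (k ::ₘ y ::ₘ Y) M * z1 ≤
      G f w ev (x ::ₘ P.erase u) (y ::ₘ Y) ((u, k) ::ₘ M) * z2 := this
    have k2 := mul_le_mul_of_nonneg_right k1 n0
    have k3 := mul_le_mul_of_nonneg_right c1 n2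
    refine le_of_mul_le_mul_right ?_ p1
    calc _ = G f w ev (x ::ₘ P) (k ::ₘ y ::ₘ Y) M * z1 * z0 := by ring
      _ ≤ G f w ev (x ::ₘ P.erase u) (y ::ₘ Y) ((u, k) ::ₘ M) * z2 * z0 := k2
      _ = G f w ev (x ::ₘ P.erase u) (y ::ₘ Y) ((u, k) ::ₘ M) * z0 * z2 := by ring
      _ ≤ _ := k3
      _ = _ := by ring
  have hC : ((p : ℝ) = 0 ∧ (P.map (fun u => G f w ev (P.erase u) Y
        ((u, k) ::ₘ (x, y) ::ₘ M))).sum = 0 ∧
      (P.map (fun u => G f w ev (x ::ₘ P.erase u) (y ::ₘ Y) ((u, k) ::ₘ M))).sum = 0) ∨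
      (0 < z0 ∧ z1 ^ 2 ≤ z0 * (z1 + z2)) := by
    rcases Nat.eq_zero_or_pos p with hp0 | hp0
    · left
      have : P = 0 := Multiset.card_eq_zero.1 (by rw [← hp, hp0])
      refine ⟨by rw [hp0]; norm_num, ?_, ?_⟩ <;> rw [this] <;> simp
    · right
      have c := cond (p - 1) e
      rw [show p - 1 + 1 = p by omega, show p - 1 + 2 = p + 1 by omega] at c
      have c' : z1 ^ 2 ≤ z0 * (z1 + z2) := c
      refine ⟨?_, c'⟩
      rcases eq_or_lt_of_le n0 with e0 | p0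
      · rw [← e0, zero_mul] at c'
        nlinarith
      · exact p0
  rw [hL, hR, hZ1, hZ2]
  refine alg (Nat.cast_nonneg p) p1 n2 ?_ (Fn _ _ _) (Fn _ _ _) (Fn _ _ _)
    (sum_map_mul_le term1) h2 h3 ?_ ?_ hC
  · refine Multiset.sum_nonneg ?_
    intro z hz
    rw [Multiset.mem_map] at hz
    obtain ⟨u, -, rfl⟩ := hz
    exact Fn _ _ _
  · rw [hp]; exact card_mul_le term4
  · rw [hp]; exact card_mul_le term5

theorem gain : ∀ ev : List Ev, Gain ev := by
  intro ev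
  induction ev with
  | nil =>
    intro f hf h0 h1 P Y M x y hg
    simp [F, Z]
  | cons e ev ih =>
    cases e with
    | el k w => exact gain_el ih k w
    | pos t w =>
      have := (gain_el ih.flip t w).flip
      have h : flipL (Ev.el t w :: flipL ev) = Ev.pos t w :: ev := by
        show Ev.pos t w :: flipL (flipL ev) = _
        rw [flipL_flipL]
      rwa [h] at this

end Pool.Agent.H906.Assoc
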