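import Pool.Agent.H906.Assoc.PosAssoc

set_option autoImplicit false

namespace Pool.Agent.H906.Assoc

/-! ### Linearity and dependence on the reachable matchings -/

theorem F_congr {f g : Multiset (ℕ × ℕ) → ℝ} (R C : Multiset ℕ)
    (h : ∀ M, M.map Prod.fst = R → M.map Prod.snd = C → f M = g M) :
    ∀ (ev : List Ev) (P Y : Multiset ℕ) (M : Multiset (ℕ × ℕ)),
      M.map Prod.fst + P + (posL ev : Multiset ℕ) = R →
      M.map Prod.snd + Y + (elL ev : Multiset ℕ) = C → F f ev P Y M = F g ev P Y M := by
  intro ev
  induction ev with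
  | nil =>
    intro P Y M h1 h2
    simp only [F]
    split_ifs with hc
    · obtain ⟨rfl, rfl⟩ := hc
      refine h M ?_ ?_
      · simpa [posL] using h1
      · simpa [elL] using h2
    · rfl
  | cons e ev ih =>
    intro P Y M h1 h2
    cases e with
    | pos t w =>
      rw [F_pos, F_pos]
      have c1 : ((posL (Ev.pos t w :: ev) : List ℕ) : Multiset ℕ) = t ::ₘ (posL ev : Multiset ℕ) := rfl
      have c2 : ((elL (Ev.pos t w :: ev) : List ℕ) : Multiset ℕ) = (elL ev : Multiset ℕ) := rfl
      rw [c1] at h1
      rw [c2] at h2
      congr 1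
      · congr 1
        refine Multiset.map_congr rfl fun y hy => ?_
        unfold G
        rw [ih P (Y.erase y) ((t, y) ::ₘ M)]
        · rw [Multiset.map_cons, Multiset.cons_add, Multiset.cons_add, ← Multiset.add_cons]
          exact h1
        · rw [Multiset.map_cons, Multiset.cons_add, ← Multiset.add_cons]
          show M.map Prod.snd + y ::ₘ Y.erase y + _ = _
          rw [Multiset.cons_erase hy]
          exact h2
      · unfold G
        rw [ih (t ::ₘ P) Y M]
        · rw [Multiset.add_cons, Multiset.cons_add, ← Multiset.add_cons]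
          exact h1
        · exact h2
    | el k w =>
      rw [F_el, F_el]
      have c1 : ((posL (Ev.el k w :: ev) : List ℕ) : Multiset ℕ) = (posL ev : Multiset ℕ) := rfl
      have c2 : ((elL (Ev.el k w :: ev) : List ℕ) : Multiset ℕ) = k ::ₘ (elL ev : Multiset ℕ) := rfl
      rw [c1] at h1
      rw [c2] at h2
      congr 1
      · congr 1
        refine Multiset.map_congr rfl fun x hx => ?_
        unfold G
        rw [ih (P.erase x) Y ((x, k) ::ₘ M)]
        · rw [Multiset.map_cons, Multiset.cons_add, ← Multiset.add_cons]
          show M.map Prod.fst + x ::ₘ P.erase x + _ = _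
          rw [Multiset.cons_erase hx]
          exact h1
        · rw [Multiset.map_cons, Multiset.cons_add, Multiset.cons_add, ← Multiset.add_cons]
          exact h2
      · unfold G
        rw [ih P (k ::ₘ Y) M]
        · exact h1
        · rw [Multiset.add_cons, Multiset.cons_add, ← Multiset.add_cons]
          exact h2

theorem F_sum {ι : Type*} (s : Finset ι) (f : ι → Multiset (ℕ × ℕ) → ℝ) :
    ∀ (ev : List Ev) (P Y : Multiset ℕ) (M : Multiset (ℕ × ℕ)),
      F (fun M => ∑ i ∈ s, f i M) ev P Y M = ∑ i ∈ s, F (f i) ev P Y M := by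
  intro ev
  induction ev with
  | nil =>
    intro P Y M
    simp only [F]
    split_ifs <;> simp
  | cons e ev ih =>
    intro P Y M
    have hG : ∀ (w : ℝ) (P Y : Multiset ℕ) (M : Multiset (ℕ × ℕ)),
        G (fun M => ∑ i ∈ s, f i M) w ev P Y M = ∑ i ∈ s, G (f i) w ev P Y M := by
      intro w P Y M
      unfold G
      rw [ih, Finset.mul_sum]
    cases e with
    | pos t w =>
      simp only [F_pos, hG, Finset.sum_add_distrib]
      congr 1
      simp only [Finset.sum]
      rw [Multiset.sum_map_sum_map]
    | el k w =>
      simp only [F_el, hG, Finset.sum_add_distrib]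
      congr 1
      simp only [Finset.sum]
      rw [Multiset.sum_map_sum_map]

theorem F_one : ∀ (ev : List Ev) (P Y : Multiset ℕ) (M : Multiset (ℕ × ℕ)),
    F (fun _ => 1) ev P Y M = Z ev P.card Y.card := by
  intro ev
  induction ev with
  | nil => intro P Y M; simp only [F, Z, Multiset.card_eq_zero]
  | cons e ev ih =>
    intro P Y M
    cases e with
    | pos t w =>
      rw [F_pos]
      simp only [Z]
      have h : ∀ y ∈ Y, G (fun _ => 1) w ev P (Y.erase y) ((t, y) ::ₘ M) =
          w ^ (P.card + (Y.card - 1)) * Z ev P.card (Y.card - 1) := by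
        intro y hy
        unfold G
        rw [ih, Multiset.card_erase_of_mem hy, Nat.pred_eq_sub_one]
      rw [Multiset.map_congr rfl h, Multiset.map_const', Multiset.sum_replicate, nsmul_eq_mul]
      unfold G
      rw [ih, Multiset.card_cons]
    | el k w =>
      rw [F_el]
      simp only [Z]
      have h : ∀ x ∈ P, G (fun _ => 1) w ev (P.erase x) Y ((x, k) ::ₘ M) =
          w ^ ((P.card - 1) + Y.card) * Z ev (P.card - 1) Y.card := by
        intro x hx
        unfold G
        rw [ih, Multiset.card_erase_of_mem hx, Nat.pred_eq_sub_one]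
      rw [Multiset.map_congr rfl h, Multiset.map_const', Multiset.sum_replicate, nsmul_eq_mul]
      unfold G
      rw [ih, Multiset.card_cons]

/-! ### Following one permutation -/

/-- the matching of a permutation of `{0, ..., n - 1}` -/
def gr (n : ℕ) (σ : ℕ → ℕ) : Multiset (ℕ × ℕ) := (Finset.range n).val.map (fun i => (i, σ i))

open Classical in
/-- the indicator function of one matching -/
noncomputable def ind (N : Multiset (ℕ × ℕ)) : Multiset (ℕ × ℕ) → ℝ := fun M => if M = N then 1 else 0

theorem mem_gr {n : ℕ} {σ : ℕ → ℕ} {x y : ℕ} : (x, y) ∈ gr n σ ↔ x < n ∧ σ x = y := by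
  simp only [gr, Multiset.mem_map, Finset.mem_val, Finset.mem_range, Prod.mk.injEq]
  constructor
  · rintro ⟨i, hi, rfl, rfl⟩; exact ⟨hi, rfl⟩
  · rintro ⟨h, rfl⟩; exact ⟨x, h, rfl, rfl⟩

/-- a nonzero value is only possible when the state is compatible with the permutation -/
theorem compat (n : ℕ) (σ : Equiv.Perm ℕ) :
    ∀ (ev : List Ev) (P Y : Multiset ℕ) (M : Multiset (ℕ × ℕ)),
      F (ind (gr n σ)) ev P Y M ≠ 0 →
      (∀ z ∈ M, σ z.1 = z.2) ∧ (∀ x ∈ P, σ x ∈ elL ev) ∧ (∀ y ∈ Y, σ.symm y ∈ posL ev) := by
  intro ev
  induction ev with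
  | nil =>
    intro P Y M h
    simp only [F] at h
    split_ifs at h with hc
    · obtain ⟨rfl, rfl⟩ := hc
      refine ⟨?_, by simp, by simp⟩
      intro z hz
      unfold ind at h
      split_ifs at h with hM
      · rw [hM] at hz
        have : (z.1, z.2) ∈ gr n σ := hz
        exact (mem_gr.1 this).2
      · exact absurd rfl h
    · exact absurd rfl h
  | cons e ev ih =>
    intro P Y M h
    cases e with
    | pos t w =>
      rw [F_pos] at h
      by_cases h2 : G (ind (gr n σ)) w ev (t ::ₘ P) Y M = 0
      · rw [h2, add_zero] at h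
        have : ∃ y ∈ Y, G (ind (gr n σ)) w ev P (Y.erase y) ((t, y) ::ₘ M) ≠ 0 := by
          by_contra hcon
          push Not at hcon
          apply h
          apply Multiset.sum_eq_zero
          intro z hz
          rw [Multiset.mem_map] at hz
          obtain ⟨y, hy, rfl⟩ := hz
          exact hcon y hy
        obtain ⟨y, hy, hne⟩ := this
        obtain ⟨a, b, c⟩ := ih P (Y.erase y) ((t, y) ::ₘ M) (right_ne_zero_of_mul hne)
        have hty : σ t = y := a (t, y) (Multiset.mem_cons_self _ _)
        refine ⟨fun z hz => a z (Multiset.mem_cons_of_mem hz), b, ?_⟩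
        intro y' hy'
        by_cases hyy : y' = y
        · subst hyy
          rw [← hty, Equiv.symm_apply_apply]
          exact List.mem_cons_self
        · exact List.mem_cons_of_mem _ (c y' ((Multiset.mem_erase_of_ne hyy).2 hy'))
      · obtain ⟨a, b, c⟩ := ih (t ::ₘ P) Y M (right_ne_zero_of_mul h2)
        exact ⟨a, fun x hx => b x (Multiset.mem_cons_of_mem hx),
          fun y hy => List.mem_cons_of_mem _ (c y hy)⟩
    | el k w =>
      rw [F_el] at h
      by_cases h2 : G (ind (gr n σ)) w ev P (k ::ₘ Y) M = 0
      · rw [h2, add_zero] at h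
        have : ∃ x ∈ P, G (ind (gr n σ)) w ev (P.erase x) Y ((x, k) ::ₘ M) ≠ 0 := by
          by_contra hcon
          push Not at hcon
          apply h
          apply Multiset.sum_eq_zero
          intro z hz
          rw [Multiset.mem_map] at hz
          obtain ⟨y, hy, rfl⟩ := hz
          exact hcon y hy
        obtain ⟨x, hx, hne⟩ := this
        obtain ⟨a, b, c⟩ := ih (P.erase x) Y ((x, k) ::ₘ M) (right_ne_zero_of_mul hne)
        have hxk : σ x = k := a (x, k) (Multiset.mem_cons_self _ _)
        refine ⟨fun z hz => a z (Multiset.mem_cons_of_mem hz), ?_, c⟩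
        intro x' hx'
        by_cases hxx : x' = x
        · subst hxx
          rw [hxk]
          exact List.mem_cons_self
        · exact List.mem_cons_of_mem _ (b x' ((Multiset.mem_erase_of_ne hxx).2 hx'))
      · obtain ⟨a, b, c⟩ := ih P (k ::ₘ Y) M (right_ne_zero_of_mul h2)
        exact ⟨a, fun x hx => List.mem_cons_of_mem _ (b x hx),
          fun y hy => c y (Multiset.mem_cons_of_mem hy)⟩

/-- open positions after the arrival of the positions `< t` and the elements `< s` -/
def opP (σ : Equiv.Perm ℕ) (t s : ℕ) : Finset ℕ := (Finset.range t).filter (fun x => s ≤ σ x)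

/-- open elements after the arrival of the positions `< t` and the elements `< s` -/
def opY (σ : Equiv.Perm ℕ) (t s : ℕ) : Finset ℕ := (Finset.range s).filter (fun y => t ≤ σ.symm y)

/-- matched pairs after the arrival of the positions `< t` and the elements `< s` -/
def mt (σ : Equiv.Perm ℕ) (t s : ℕ) : Multiset (ℕ × ℕ) :=
  ((Finset.range t).filter (fun x => σ x < s)).val.map (fun x => (x, σ x))

theorem traceP (n : ℕ) (σ : Equiv.Perm ℕ) (t s : ℕ) (w : ℝ) (ev : List Ev)
    (hE : ∀ k ∈ elL ev, s ≤ k) :
    F (ind (gr n σ)) (Ev.pos t w :: ev) (opP σ t s).val (opY σ t s).val (mt σ t s) =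
      G (ind (gr n σ)) w ev (opP σ (t + 1) s).val (opY σ (t + 1) s).val (mt σ (t + 1) s) := by
  rw [F_pos]
  by_cases hts : σ t < s
  · -- the position is matched to an open element
    have hyt : σ t ∈ opY σ t s := by
      simp [opY, hts]
    have e1 : opP σ (t + 1) s = opP σ t s := by
      unfold opP
      rw [Finset.range_add_one, Finset.filter_insert, if_neg (by omega)]
    have e2 : (opY σ (t + 1) s).val = (opY σ t s).val.erase (σ t) := by
      rw [← Finset.erase_val]
      congr 1
      ext y
      simp only [opY, Finset.mem_filter, Finset.mem_range, Finset.mem_erase]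
      constructor
      · rintro ⟨a, b⟩
        refine ⟨?_, a, by omega⟩
        rintro rfl
        rw [Equiv.symm_apply_apply] at b
        omega
      · rintro ⟨a, b, c⟩
        refine ⟨b, ?_⟩
        have : σ.symm y ≠ t := by
          rintro rfl
          rw [Equiv.apply_symm_apply] at a
          exact a rfl
        omega
    have e3 : mt σ (t + 1) s = (t, σ t) ::ₘ mt σ t s := by
      unfold mt
      rw [Finset.range_add_one, Finset.filter_insert, if_pos hts,
        Finset.insert_val_of_notMem (by simp), Multiset.map_cons]
    have hopen : G (ind (gr n σ)) w ev (t ::ₘ (opP σ t s).val) (opY σ t s).val (mt σ t s) = 0 := by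
      by_contra h
      obtain ⟨-, b, -⟩ := compat n σ _ _ _ _ (right_ne_zero_of_mul h)
      have := hE _ (b t (Multiset.mem_cons_self _ _))
      omega
    rw [hopen, add_zero]
    have hsum : ((opY σ t s).val.map (fun y => G (ind (gr n σ)) w ev (opP σ t s).val
        ((opY σ t s).val.erase y) ((t, y) ::ₘ mt σ t s))).sum =
        ∑ y ∈ opY σ t s, G (ind (gr n σ)) w ev (opP σ t s).val
        ((opY σ t s).val.erase y) ((t, y) ::ₘ mt σ t s) := rfl
    rw [hsum, Finset.sum_eq_single (σ t)]
    · rw [e1, e2, e3]
    · intro y _ hne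
      by_contra h
      obtain ⟨a, -, -⟩ := compat n σ _ _ _ _ (right_ne_zero_of_mul h)
      exact hne (a (t, y) (Multiset.mem_cons_self _ _)).symm
    · intro h; exact absurd hyt h
  · have e1 : (opP σ (t + 1) s).val = t ::ₘ (opP σ t s).val := by
      unfold opP
      rw [Finset.range_add_one, Finset.filter_insert, if_pos (by omega),
        Finset.insert_val_of_notMem (by simp)]
    have e2 : opY σ (t + 1) s = opY σ t s := by
      ext y
      simp only [opY, Finset.mem_filter, Finset.mem_range]
      constructor
      · rintro ⟨a, b⟩; exact ⟨a, by omega⟩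
      · rintro ⟨a, b⟩
        refine ⟨a, ?_⟩
        have : σ.symm y ≠ t := by
          rintro rfl
          rw [Equiv.apply_symm_apply] at hts
          omega
        omega
    have e3 : mt σ (t + 1) s = mt σ t s := by
      unfold mt
      rw [Finset.range_add_one, Finset.filter_insert, if_neg hts]
    have hz : ((opY σ t s).val.map (fun y => G (ind (gr n σ)) w ev (opP σ t s).val
        ((opY σ t s).val.erase y) ((t, y) ::ₘ mt σ t s))).sum = 0 := by
      apply Multiset.sum_eq_zero
      intro z hz
      rw [Multiset.mem_map] at hz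
      obtain ⟨y, hy, rfl⟩ := hz
      by_contra h
      obtain ⟨a, -, -⟩ := compat n σ _ _ _ _ (right_ne_zero_of_mul h)
      have h1 : σ t = y := a (t, y) (Multiset.mem_cons_self _ _)
      have h2 : y ∈ opY σ t s := hy
      simp only [opY, Finset.mem_filter, Finset.mem_range] at h2
      omega
    rw [hz, zero_add, e1, e2, e3]

theorem traceE (n : ℕ) (σ : Equiv.Perm ℕ) (t s : ℕ) (w : ℝ) (ev : List Ev)
    (hP : ∀ u ∈ posL ev, t ≤ u) :
    F (ind (gr n σ)) (Ev.el s w :: ev) (opP σ t s).val (opY σ t s).val (mt σ t s) =
      G (ind (gr n σ)) w ev (opP σ t (s + 1)).val (opY σ t (s + 1)).val (mt σ t (s + 1)) := by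
  rw [F_el]
  by_cases hts : σ.symm s < t
  · -- the element is matched to an open position
    have hyt : σ.symm s ∈ opP σ t s := by
      simp [opP, hts]
    have e1 : opY σ t (s + 1) = opY σ t s := by
      unfold opY
      rw [Finset.range_add_one, Finset.filter_insert, if_neg (by omega)]
    have e2 : (opP σ t (s + 1)).val = (opP σ t s).val.erase (σ.symm s) := by
      rw [← Finset.erase_val]
      congr 1
      ext y
      simp only [opP, Finset.mem_filter, Finset.mem_range, Finset.mem_erase]
      constructor
      · rintro ⟨a, b⟩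
        refine ⟨?_, a, by omega⟩
        rintro rfl
        rw [Equiv.apply_symm_apply] at b
        omega
      · rintro ⟨a, b, c⟩
        refine ⟨b, ?_⟩
        have : σ y ≠ s := by
          rintro rfl
          rw [Equiv.symm_apply_apply] at a
          exact a rfl
        omega
    have e3 : mt σ t (s + 1) = (σ.symm s, s) ::ₘ mt σ t s := by
      unfold mt
      have : (Finset.range t).filter (fun x => σ x < s + 1) =
          insert (σ.symm s) ((Finset.range t).filter (fun x => σ x < s)) := by
        ext x
        simp only [Finset.mem_filter, Finset.mem_range, Finset.mem_insert]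
        constructor
        · rintro ⟨a, b⟩
          rcases Nat.lt_succ_iff_lt_or_eq.1 b with h | h
          · exact Or.inr ⟨a, h⟩
          · left; rw [← h, Equiv.symm_apply_apply]
        · rintro (rfl | ⟨a, b⟩)
          · exact ⟨hts, by rw [Equiv.apply_symm_apply]; omega⟩
          · exact ⟨a, by omega⟩
      rw [this, Finset.insert_val_of_notMem (by simp), Multiset.map_cons, Equiv.apply_symm_apply]
    have hopen : G (ind (gr n σ)) w ev (opP σ t s).val (s ::ₘ (opY σ t s).val) (mt σ t s) = 0 := by
      by_contra h
      obtain ⟨-, -, b⟩ := compat n σ _ _ _ _ (right_ne_zero_of_mul h)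
      have := hP _ (b s (Multiset.mem_cons_self _ _))
      omega
    rw [hopen, add_zero]
    have hsum : ((opP σ t s).val.map (fun x => G (ind (gr n σ)) w ev ((opP σ t s).val.erase x)
        (opY σ t s).val ((x, s) ::ₘ mt σ t s))).sum =
        ∑ x ∈ opP σ t s, G (ind (gr n σ)) w ev ((opP σ t s).val.erase x)
        (opY σ t s).val ((x, s) ::ₘ mt σ t s) := rfl
    rw [hsum, Finset.sum_eq_single (σ.symm s)]
    · rw [e1, e2, e3]
    · intro y _ hne
      by_contra h
      obtain ⟨a, -, -⟩ := compat n σ _ _ _ _ (right_ne_zero_of_mul h)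
      have : σ y = s := a (y, s) (Multiset.mem_cons_self _ _)
      apply hne
      rw [← this, Equiv.symm_apply_apply]
    · intro h; exact absurd hyt h
  · have e1 : (opY σ t (s + 1)).val = s ::ₘ (opY σ t s).val := by
      unfold opY
      rw [Finset.range_add_one, Finset.filter_insert, if_pos (by omega),
        Finset.insert_val_of_notMem (by simp)]
    have e2 : opP σ t (s + 1) = opP σ t s := by
      ext x
      simp only [opP, Finset.mem_filter, Finset.mem_range]
      constructor
      · rintro ⟨a, b⟩; exact ⟨a, by omega⟩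
      · rintro ⟨a, b⟩
        refine ⟨a, ?_⟩
        have : σ x ≠ s := by
          rintro rfl
          rw [Equiv.symm_apply_apply] at hts
          omega
        omega
    have e3 : mt σ t (s + 1) = mt σ t s := by
      unfold mt
      congr 2
      ext x
      simp only [Finset.mem_filter, Finset.mem_range]
      constructor
      · rintro ⟨a, b⟩
        refine ⟨a, ?_⟩
        have : σ x ≠ s := by
          rintro rfl
          rw [Equiv.symm_apply_apply] at hts
          omega
        omega
      · rintro ⟨a, b⟩; exact ⟨a, by omega⟩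
    have hz : ((opP σ t s).val.map (fun x => G (ind (gr n σ)) w ev ((opP σ t s).val.erase x)
        (opY σ t s).val ((x, s) ::ₘ mt σ t s))).sum = 0 := by
      apply Multiset.sum_eq_zero
      intro z hz
      rw [Multiset.mem_map] at hz
      obtain ⟨x, hx, rfl⟩ := hz
      by_contra h
      obtain ⟨a, -, -⟩ := compat n σ _ _ _ _ (right_ne_zero_of_mul h)
      have h1 : σ x = s := a (x, s) (Multiset.mem_cons_self _ _)
      have h2 : x ∈ opP σ t s := hx
      simp only [opP, Finset.mem_filter, Finset.mem_range] at h2
      apply hts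
      rw [← h1, Equiv.symm_apply_apply]
      exact h2.1
    rw [hz, zero_add, e1, e2, e3]

end Pool.Agent.H906.Assoc
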