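import Pool.Agent.H906.Assoc.Gain2

set_option autoImplicit false

namespace Pool.Agent.H906.Assoc

theorem cheb {A B : ℕ → ℝ} : ∀ P : Multiset ℕ,
    (∀ u ∈ P, ∀ v ∈ P, 0 ≤ (A u - A v) * (B u - B v)) →
    (P.map A).sum * (P.map B).sum ≤ P.card * (P.map (fun u => A u * B u)).sum := by
  intro P
  induction P using Multiset.induction_on with
  | empty => intro _; simp
  | cons a P ih =>
    intro h
    have ih' := ih fun u hu v hv => h u (Multiset.mem_cons_of_mem hu) v (Multiset.mem_cons_of_mem hv)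
    have hc : A a * (P.map B).sum + B a * (P.map A).sum ≤
        P.card * (A a * B a) + (P.map (fun u => A u * B u)).sum := by
      have h1 : ∀ u ∈ P, A a * B u + B a * A u ≤ A a * B a + A u * B u := by
        intro u hu
        have := h a (Multiset.mem_cons_self _ _) u (Multiset.mem_cons_of_mem hu)
        nlinarith
      have h2 := Multiset.sum_map_le_sum_map _ _ h1
      rw [Multiset.sum_map_add, Multiset.sum_map_add, Multiset.sum_map_mul_left,
        Multiset.sum_map_mul_left, Multiset.map_const', Multiset.sum_replicate,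
        nsmul_eq_mul] at h2
      exact h2
    rw [Multiset.map_cons, Multiset.map_cons, Multiset.map_cons, Multiset.sum_cons,
      Multiset.sum_cons, Multiset.sum_cons, Multiset.card_cons]
    push_cast
    nlinarith

/-- positive association for the completions of a state -/
def PA (ev : List Ev) : Prop :=
  ∀ (f g : Multiset (ℕ × ℕ) → ℝ), Inc f → (∀ M, 0 ≤ f M) → (∀ M, f M ≤ 1) →
    Inc g → (∀ M, 0 ≤ g M) → (∀ M, g M ≤ 1) →
    ∀ (P Y : Multiset ℕ) (M : Multiset (ℕ × ℕ)), Good ev P Y →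
      F f ev P Y M * F g ev P Y M ≤ F (fun M => f M * g M) ev P Y M * Z ev P.card Y.card

theorem PA.flip {ev : List Ev} (h : PA ev) : PA (flipL ev) := by
  intro f g hf f0 f1 hg g0 g1 P Y M hG
  have hG' := hG.flip
  rw [flipL_flipL] at hG'
  have := h (fun M => f (M.map Prod.swap)) (fun M => g (M.map Prod.swap)) hf.flip (fun M => f0 _)
    (fun M => f1 _) hg.flip (fun M => g0 _) (fun M => g1 _) Y P (M.map Prod.swap) hG'
  rw [F_flip' f, F_flip' g, F_flip' (fun M => f M * g M), Z_flip]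
  exact this

theorem PAG {ev : List Ev} (h : PA ev) {f g : Multiset (ℕ × ℕ) → ℝ} (hf : Inc f)
    (f0 : ∀ M, 0 ≤ f M) (f1 : ∀ M, f M ≤ 1) (hg : Inc g) (g0 : ∀ M, 0 ≤ g M) (g1 : ∀ M, g M ≤ 1)
    {w : ℝ} (hw : 0 ≤ w) (P Y : Multiset ℕ) (M : Multiset (ℕ × ℕ)) (hG : Good ev P Y) :
    G f w ev P Y M * G g w ev P Y M ≤
      G (fun M => f M * g M) w ev P Y M * (w ^ (P.card + Y.card) * Z ev P.card Y.card) := by
  have := h f g hf f0 f1 hg g0 g1 P Y M hG
  unfold G
  have h2 := mul_le_mul_of_nonneg_left this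
    (mul_nonneg (pow_nonneg hw (P.card + Y.card)) (pow_nonneg hw (P.card + Y.card)))
  calc _ = w ^ (P.card + Y.card) * w ^ (P.card + Y.card) * (F f ev P Y M * F g ev P Y M) := by ring
    _ ≤ _ := h2
    _ = _ := by ring

theorem PA_el {ev : List Ev} (ih : PA ev) (k : ℕ) (w : ℝ) : PA (Ev.el k w :: ev) := by
  intro f g hf f0 f1 hg g0 g1 P Y M hG
  have hw0 : 0 ≤ w := (hG.hw _ List.mem_cons_self).1
  have hwl : ∀ e ∈ ev, 0 ≤ e.w := fun e he => (hG.hw e (List.mem_cons_of_mem _ he)).1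
  have hkf : ∀ s ∈ elL ev, k ≤ s := (List.pairwise_cons.1 hG.sY).1
  have hxP : ∀ u ∈ P, ∀ t ∈ posL ev, u ≤ t := hG.hP
  have hyY : ∀ v ∈ k ::ₘ Y, ∀ s ∈ elL ev, v ≤ s := by
    intro v hv s hs
    rcases Multiset.mem_cons.1 hv with rfl | hv
    · exact hkf s hs
    · exact hG.hY v hv s (List.mem_cons_of_mem _ hs)
  have good : ∀ P' Y' : Multiset ℕ, (∀ u ∈ P', u ∈ P) → (∀ v ∈ Y', v ∈ k ::ₘ Y) →
      Good ev P' Y' := fun P' Y' a b =>
    hG.tail (fun u hu => hxP u (a u hu)) (fun v hv => hyY v (b v hv))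
  have hfg : ∀ M, 0 ≤ f M * g M := fun M => mul_nonneg (f0 M) (g0 M)
  obtain ⟨p, hp⟩ : ∃ p, p = P.card := ⟨_, rfl⟩
  obtain ⟨e, he⟩ : ∃ e, e = Y.card := ⟨_, rfl⟩
  set z0 : ℝ := w ^ ((p - 1) + e) * Z ev (p - 1) e with hz0
  set z1 : ℝ := w ^ (p + (e + 1)) * Z ev p (e + 1) with hz1
  have n0 : 0 ≤ z0 := mul_nonneg (pow_nonneg hw0 _) (Z_nonneg ev hwl _ _)
  have n1 : 0 ≤ z1 := mul_nonneg (pow_nonneg hw0 _) (Z_nonneg ev hwl _ _)
  have hZ1 : Z (Ev.el k w :: ev) P.card Y.card = p * z0 + z1 := by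
    rw [← hp, ← he]; rfl
  have Gn : ∀ (f : Multiset (ℕ × ℕ) → ℝ), (∀ M, 0 ≤ f M) →
      ∀ (P Y : Multiset ℕ) (M : Multiset (ℕ × ℕ)), 0 ≤ G f w ev P Y M := fun f f0 P Y M =>
    mul_nonneg (pow_nonneg hw0 _) (F_nonneg f0 ev hwl _ _ _)
  have hcu : ∀ u ∈ P, (P.erase u).card = p - 1 ∧ (P.erase u).card + 1 = p := by
    intro u hu
    rw [Multiset.card_erase_of_mem hu, Nat.pred_eq_sub_one, ← hp]
    have : 0 < p := by rw [hp]; exact Multiset.card_pos_iff_exists_mem.2 ⟨u, hu⟩
    omega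
  -- abbreviations
  set Af : ℕ → ℝ := fun u => G f w ev (P.erase u) Y ((u, k) ::ₘ M) with hAf
  set Ag : ℕ → ℝ := fun u => G g w ev (P.erase u) Y ((u, k) ::ₘ M) with hAg
  set Ah : ℕ → ℝ := fun u => G (fun M => f M * g M) w ev (P.erase u) Y ((u, k) ::ₘ M) with hAh
  set Bf : ℝ := G f w ev P (k ::ₘ Y) M with hBf
  set Bg : ℝ := G g w ev P (k ::ₘ Y) M with hBg
  set Bh : ℝ := G (fun M => f M * g M) w ev P (k ::ₘ Y) M with hBh
  rw [F_el, F_el, F_el, hZ1]
  -- the individual inequalities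
  have a1 : ∀ u ∈ P, Af u * Ag u ≤ Ah u * z0 := by
    intro u hu
    have := PAG ih hf f0 f1 hg g0 g1 hw0 (P.erase u) Y ((u, k) ::ₘ M)
      (good _ _ (fun v hv => Multiset.mem_of_mem_erase hv)
        (fun v hv => Multiset.mem_cons_of_mem hv))
    rw [(hcu u hu).1, ← he] at this
    exact this
  have a2 : Bf * Bg ≤ Bh * z1 := by
    have := PAG ih hf f0 f1 hg g0 g1 hw0 P (k ::ₘ Y) M (good _ _ (fun v hv => hv) (fun v hv => hv))
    rw [Multiset.card_cons, ← hp, ← he] at this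
    exact this
  have mon : ∀ (f : Multiset (ℕ × ℕ) → ℝ), Inc f → ∀ u ∈ P, ∀ v ∈ P, u ≤ v →
      G f w ev (P.erase v) Y ((v, k) ::ₘ M) ≤ G f w ev (P.erase u) Y ((u, k) ::ₘ M) := by
    intro f hf u hu v hv huv
    rcases eq_or_ne u v with rfl | hne
    · exact le_rfl
    · have hvu : v ∈ P.erase u := (Multiset.mem_erase_of_ne hne.symm).2 hv
      have huv' : u ∈ P.erase v := (Multiset.mem_erase_of_ne hne).2 hu
      have := exPos hf ev hwl ((P.erase u).erase v) Y M u v k huv hkf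
      rw [Multiset.cons_erase hvu, Multiset.erase_comm, Multiset.cons_erase huv'] at this
      unfold G
      rw [(hcu u hu).1, (hcu v hv).1]
      exact mul_le_mul_of_nonneg_left this (pow_nonneg hw0 _)
  have a3 : ∀ u ∈ P, ∀ v ∈ P, 0 ≤ (Af u - Af v) * (Ag u - Ag v) := by
    intro u hu v hv
    rcases le_total u v with h | h
    · exact mul_nonneg (sub_nonneg.2 (mon f hf u hu v hv h)) (sub_nonneg.2 (mon g hg u hu v hv h))
    · exact mul_nonneg_of_nonpos_of_nonpos (sub_nonpos.2 (mon f hf v hv u hu h))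
        (sub_nonpos.2 (mon g hg v hv u hu h))
  have a4 : ∀ (f : Multiset (ℕ × ℕ) → ℝ), Inc f → (∀ M, 0 ≤ f M) → (∀ M, f M ≤ 1) → ∀ u ∈ P,
      G f w ev P (k ::ₘ Y) M * z0 ≤ G f w ev (P.erase u) Y ((u, k) ::ₘ M) * z1 := by
    intro f hf f0 f1 u hu
    have := gainG (gain ev) hf f0 f1 hw0 (P.erase u) Y M u k
      (good _ _ (by rw [Multiset.cons_erase hu]; exact fun v hv => hv) (fun v hv => hv))
    rw [Multiset.cons_erase hu, (hcu u hu).2, (hcu u hu).1, ← he] at this
    exact this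
  have bz : ∀ (f : Multiset (ℕ × ℕ) → ℝ), (∀ M, f M ≤ 1) → G f w ev P (k ::ₘ Y) M ≤ z1 := by
    intro f f1
    have := F_le_Z f1 ev hwl P (k ::ₘ Y) M
    unfold G
    rw [Multiset.card_cons, ← hp, ← he] at this ⊢
    exact mul_le_mul_of_nonneg_left this (pow_nonneg hw0 _)
  have s1 : (P.map Af).sum * (P.map Ag).sum ≤ p * ((P.map Ah).sum * z0) := by
    have c1 := cheb P a3
    have c2 := Multiset.sum_map_le_sum_map _ _ a1
    rw [Multiset.sum_map_mul_right] at c2
    rw [hp]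
    exact c1.trans (mul_le_mul_of_nonneg_left c2 (Nat.cast_nonneg _))
  have SAn : ∀ (A : ℕ → ℝ), (∀ u, 0 ≤ A u) → 0 ≤ (P.map A).sum := by
    intro A hA
    refine Multiset.sum_nonneg ?_
    intro z hz
    rw [Multiset.mem_map] at hz
    obtain ⟨u, -, rfl⟩ := hz
    exact hA u
  have nAf := SAn Af fun u => Gn f f0 _ _ _
  have nAg := SAn Ag fun u => Gn g g0 _ _ _
  have nAh := SAn Ah fun u => Gn _ hfg _ _ _
  have nBf : 0 ≤ Bf := Gn f f0 _ _ _
  have nBg : 0 ≤ Bg := Gn g g0 _ _ _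
  have nBh : 0 ≤ Bh := Gn _ hfg _ _ _
  rcases eq_or_lt_of_le n1 with e1 | p1
  · have hBf0 : Bf = 0 := le_antisymm (by have := bz f f1; rw [← e1] at this; exact this) nBf
    have hBg0 : Bg = 0 := le_antisymm (by have := bz g g1; rw [← e1] at this; exact this) nBg
    show ((P.map Af).sum + Bf) * ((P.map Ag).sum + Bg) ≤
      ((P.map Ah).sum + Bh) * (p * z0 + z1)
    rw [hBf0, hBg0, ← e1]
    have : 0 ≤ Bh * (p * z0) := mul_nonneg nBh (mul_nonneg (Nat.cast_nonneg _) n0)
    nlinarith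
  · -- cross terms
    have cross : ∀ u ∈ P, Af u * Bg + Ag u * Bf ≤ Ah u * z1 + z0 * Bh := by
      intro u hu
      have b1 := a1 u hu
      have b4f := a4 f hf f0 f1 u hu
      have b4g := a4 g hg g0 g1 u hu
      have nu : 0 ≤ Ah u := Gn _ hfg _ _ _
      have hz0p : 0 < z0 := by
        rcases eq_or_lt_of_le n0 with e0 | p0
        · exfalso
          have hw1 : w ≤ 1 := (hG.hw _ List.mem_cons_self).2
          have hZ := Zcond ev (fun e he => hG.hw e (List.mem_cons_of_mem _ he)) (p - 1) e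
          have hpp : 0 < p := by rw [hp]; exact Multiset.card_pos_iff_exists_mem.2 ⟨u, hu⟩
          rw [show p - 1 + 1 = p by omega, show p - 1 + 2 = p + 1 by omega] at hZ
          have hwp : 0 < w ^ (p + (e + 1)) := by
            rcases eq_or_lt_of_le (pow_nonneg hw0 (p + (e + 1))) with h | h
            · rw [hz1, ← h, zero_mul] at p1; exact absurd p1 (lt_irrefl _)
            · exact h
          have hwpos : 0 < w := by
            rcases eq_or_lt_of_le hw0 with h | h
            · rw [← h, zero_pow (by omega)] at hwp; exact absurd hwp (lt_irrefl _)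
            · exact h
          have hZ0 : Z ev (p - 1) e = 0 := by
            have := e0.symm
            rw [hz0] at this
            rcases mul_eq_zero.1 this with h | h
            · exact absurd h (pow_pos hwpos _).ne'
            · exact h
          rw [hZ0, zero_mul] at hZ
          have hZ1' : Z ev p (e + 1) = 0 := by nlinarith [sq_nonneg (Z ev p (e + 1))]
          rw [hz1, hZ1', mul_zero] at p1
          exact lt_irrefl _ p1
        · exact p0
      have hz : 0 < z0 * z1 := mul_pos hz0p p1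
      refine le_of_mul_le_mul_right ?_ hz
      have t1 : 0 ≤ (Af u * z1 - Bf * z0) * (Ag u * z1 - Bg * z0) :=
        mul_nonneg (sub_nonneg.2 b4f) (sub_nonneg.2 b4g)
      have t2 : Af u * Ag u * z1 ^ 2 ≤ Ah u * z0 * z1 ^ 2 :=
        mul_le_mul_of_nonneg_right b1 (sq_nonneg _)
      have t3 : Bf * Bg * z0 ^ 2 ≤ Bh * z1 * z0 ^ 2 :=
        mul_le_mul_of_nonneg_right a2 (sq_nonneg _)
      nlinarith
    have s2 : (P.map Af).sum * Bg + (P.map Ag).sum * Bf ≤ (P.map Ah).sum * z1 + p * (z0 * Bh) := by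
      have c2 := Multiset.sum_map_le_sum_map _ _ cross
      rw [Multiset.sum_map_add, Multiset.sum_map_add, Multiset.sum_map_mul_right,
        Multiset.sum_map_mul_right, Multiset.sum_map_mul_right, Multiset.map_const',
        Multiset.sum_replicate, nsmul_eq_mul, ← hp] at c2
      exact c2
    show ((P.map Af).sum + Bf) * ((P.map Ag).sum + Bg) ≤
      ((P.map Ah).sum + Bh) * (p * z0 + z1)
    nlinarith

theorem posAssoc : ∀ ev : List Ev, PA ev := by
  intro ev
  induction ev with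
  | nil =>
    intro f g hf f0 f1 hg g0 g1 P Y M hG
    simp only [F, Z, Multiset.card_eq_zero]
    split_ifs <;> simp
  | cons e ev ih =>
    cases e with
    | el k w => exact PA_el ih k w
    | pos t w =>
      have := (PA_el ih.flip t w).flip
      have h : flipL (Ev.el t w :: flipL ev) = Ev.pos t w :: ev := by
        show Ev.pos t w :: flipL (flipL ev) = _
        rw [flipL_flipL]
      rwa [h] at this

end Pool.Agent.H906.Assoc
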